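import Pool.Agent.W663.KK.Mean

set_option autoImplicit false
set_option linter.unusedSectionVars false

open Filter Topology
open scoped InnerProductSpace

namespace Pool.Agent.W663.KK

variable {H : Type} [NormedAddCommGroup H] [InnerProductSpace ℂ H] [CompleteSpace H]

theorem norm_unitary_le {w : H →L[ℂ] H} (hw : w ∈ unitary (H →L[ℂ] H)) : ‖w‖ ≤ 1 := by
  refine ContinuousLinearMap.opNorm_le_bound _ zero_le_one fun x => ?_
  have h1 : ⟪w x, w x⟫_ℂ = ⟪x, x⟫_ℂ := by
    rw [← ContinuousLinearMap.adjoint_inner_right, ← ContinuousLinearMap.star_eq_adjoint]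
    have h2 : (star w * w) x = x := by rw [(Unitary.mem_iff.1 hw).1]; rfl
    have h3 : (star w) (w x) = x := h2
    rw [h3]
  rw [inner_self_eq_norm_sq_to_K, inner_self_eq_norm_sq_to_K] at h1
  have h4 : ‖w x‖ ^ 2 = ‖x‖ ^ 2 := by
    have := congrArg Complex.re h1
    simpa [← Complex.ofReal_pow] using this
  rw [one_mul]
  exact ((sq_eq_sq₀ (norm_nonneg _) (norm_nonneg _)).1 h4).le

theorem polar_unitary {T : H →L[ℂ] H} {ε : ℝ} (hε : ε < 1) (h1 : ‖star T * T - 1‖ ≤ ε)
    (h2 : ‖T * star T - 1‖ ≤ ε) : ∃ w ∈ unitary (H →L[ℂ] H), ‖w - T‖ ≤ ε ∧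
      ∀ S, S * T = T * S → S * star T = star T * S → S * w = w * S := by
  have hε0 : 0 ≤ ε := (norm_nonneg _).trans h1
  set A : H →L[ℂ] H := star T * T with hA
  have hsa : IsSelfAdjoint A := IsSelfAdjoint.star_mul_self T
  have hspec : ∀ t ∈ spectrum ℝ A, |t - 1| ≤ ε := by
    intro t ht
    have h3 : cfc (fun t : ℝ => t - 1) A = A - 1 := by
      rw [cfc_sub (fun t : ℝ => t) (fun _ => 1) A (by fun_prop) (by fun_prop), cfc_id' ℝ A,
        cfc_const_one ℝ A]
    have h4 := norm_apply_le_norm_cfc (fun t : ℝ => t - 1) A ht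
    rw [h3, Real.norm_eq_abs] at h4
    exact h4.trans h1
  have hpos : ∀ t ∈ spectrum ℝ A, 0 < t := by
    intro t ht
    have := (abs_le.1 (hspec t ht)).1
    linarith
  have hcont : ContinuousOn (fun t : ℝ => (√t)⁻¹) (spectrum ℝ A) := by
    refine ContinuousOn.inv₀ (Real.continuous_sqrt.continuousOn) fun t ht => ?_
    exact (Real.sqrt_pos.2 (hpos t ht)).ne'
  set c : H →L[ℂ] H := cfc (fun t : ℝ => (√t)⁻¹) A with hc
  have hcsa : star c = c := (cfc_predicate (fun t : ℝ => (√t)⁻¹) A : IsSelfAdjoint c).star_eq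
  have hcAc : c * A * c = 1 := by
    have h3 : A = cfc (fun t : ℝ => t) A := (cfc_id' ℝ A).symm
    conv_lhs => arg 1; arg 2; rw [h3]
    rw [hc, ← cfc_mul (fun t : ℝ => (√t)⁻¹) (fun t : ℝ => t) A hcont (by fun_prop),
      ← cfc_mul (fun t : ℝ => (√t)⁻¹ * t) (fun t : ℝ => (√t)⁻¹) A (hcont.mul (by fun_prop)) hcont]
    rw [← cfc_const_one ℝ A]
    refine cfc_congr fun t ht => ?_
    have h4 := hpos t ht
    have h5 : √t * √t = t := Real.mul_self_sqrt h4.le
    have h6 : √t ≠ 0 := (Real.sqrt_pos.2 h4).ne'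
    show (√t)⁻¹ * t * (√t)⁻¹ = 1
    field_simp
    rw [sq, h5]
  set w : H →L[ℂ] H := T * c with hw
  have hww : star w * w = 1 := by
    rw [hw, star_mul, hcsa]
    calc c * star T * (T * c) = c * (star T * T) * c := by noncomm_ring
      _ = 1 := hcAc
  -- invertibility
  have hinv : ∀ X : H →L[ℂ] H, ‖X - 1‖ ≤ ε → IsUnit X := by
    intro X hX
    have h3 : X = 1 - (1 - X) := by abel
    rw [h3]
    refine isUnit_one_sub_of_norm_lt_one ?_
    rw [norm_sub_rev]
    linarith
  have hTu : IsUnit T := by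
    have h3 := hinv _ h1
    have h4 := hinv _ h2
    obtain ⟨a, ha⟩ := h3
    obtain ⟨b, hb⟩ := h4
    refine isUnit_iff_exists.2 ⟨((a⁻¹ : (H →L[ℂ] H)ˣ) : H →L[ℂ] H) * star T, ?_, ?_⟩
    · -- left inverse equals right inverse
      have h5 : ((a⁻¹ : (H →L[ℂ] H)ˣ) : H →L[ℂ] H) * star T * T = 1 := by
        rw [mul_assoc]
        show ((a⁻¹ : (H →L[ℂ] H)ˣ) : H →L[ℂ] H) * A = 1
        rw [← ha, Units.inv_mul]
      have h6 : T * (star T * ((b⁻¹ : (H →L[ℂ] H)ˣ) : H →L[ℂ] H)) = 1 := by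
        rw [← mul_assoc, ← hb, Units.mul_inv]
      have h7 := left_inv_eq_right_inv h5 h6
      rw [h7, h6]
    · rw [mul_assoc]
      show ((a⁻¹ : (H →L[ℂ] H)ˣ) : H →L[ℂ] H) * A = 1
      rw [← ha, Units.inv_mul]
  have hcu : IsUnit c := by
    have hcomm : Commute c A := by
      rw [hc]
      exact (Commute.refl A).cfc_real _
    have h3 : c * (A * c) = 1 := by rw [← mul_assoc]; exact hcAc
    have h4 : (A * c) * c = 1 := by
      rw [← hcomm.eq, mul_assoc]
      rw [← hcomm.eq] at h3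
      calc c * (A * c) = c * (c * A) := by rw [← hcomm.eq]
        _ = 1 := h3
    exact isUnit_iff_exists.2 ⟨A * c, h3, h4⟩
  have hwu : IsUnit w := hTu.mul hcu
  have hwmem : w ∈ unitary (H →L[ℂ] H) := by
    refine Unitary.mem_iff.2 ⟨hww, ?_⟩
    obtain ⟨u, hu⟩ := hwu
    have h3 : star w = ((u⁻¹ : (H →L[ℂ] H)ˣ) : H →L[ℂ] H) := by
      calc star w = star w * (w * ((u⁻¹ : (H →L[ℂ] H)ˣ) : H →L[ℂ] H)) := by
            rw [← hu, Units.mul_inv, mul_one]
        _ = ((u⁻¹ : (H →L[ℂ] H)ˣ) : H →L[ℂ] H) := by rw [← mul_assoc, hww, one_mul]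
    rw [h3, ← hu, Units.mul_inv]
  refine ⟨w, hwmem, ?_, ?_⟩
  · -- distance
    have hsq : ContinuousOn (fun t : ℝ => √t) (spectrum ℝ A) := Real.continuous_sqrt.continuousOn
    have h3 : c * cfc (fun t : ℝ => √t) A = 1 := by
      rw [hc, ← cfc_mul _ _ A hcont hsq, ← cfc_const_one ℝ A]
      refine cfc_congr fun t ht => ?_
      exact inv_mul_cancel₀ (Real.sqrt_pos.2 (hpos t ht)).ne'
    have h4 : w - T = w * (1 - cfc (fun t : ℝ => √t) A) := by
      rw [mul_sub, mul_one, hw, mul_assoc, h3, mul_one]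
    have h5 : ‖1 - cfc (fun t : ℝ => √t) A‖ ≤ ε := by
      rw [← cfc_const_one ℝ A, ← cfc_sub _ _ A (by fun_prop) hsq]
      refine norm_cfc_le hε0 fun t ht => ?_
      have h6 := hpos t ht
      rw [Real.norm_eq_abs]
      refine le_trans ?_ (hspec t ht)
      have h7 : t - 1 = (√t - 1) * (√t + 1) := by
        have := Real.mul_self_sqrt h6.le
        linear_combination -this
      rw [h7, abs_mul, abs_sub_comm]
      have h8 : 1 ≤ |√t + 1| := by
        rw [abs_of_pos (by positivity)]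
        linarith [Real.sqrt_nonneg t]
      nlinarith [abs_nonneg (√t - 1)]
    rw [h4]
    calc ‖w * (1 - cfc (fun t : ℝ => √t) A)‖ ≤ ‖w‖ * ‖1 - cfc (fun t : ℝ => √t) A‖ :=
          norm_mul_le _ _
      _ ≤ 1 * ε := mul_le_mul (norm_unitary_le hwmem) h5 (norm_nonneg _) zero_le_one
      _ = ε := one_mul ε
  · intro S hS hS'
    have h3 : Commute S A := by
      show S * (star T * T) = star T * T * S
      rw [← mul_assoc, hS', mul_assoc, hS, mul_assoc]
    have h4 : Commute S c := by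
      rw [hc]
      exact (h3.symm.cfc_real _).symm
    rw [hw, ← mul_assoc, hS, mul_assoc, h4.eq, mul_assoc]

/-- an element of `N` close to a unitary is close to a unitary of `N` -/
theorem near_unitary (N : VonNeumannAlgebra H) {U y : H →L[ℂ] H} (hU : U ∈ unitary (H →L[ℂ] H))
    (hy : y ∈ N) {γ : ℝ} (hγ : γ ≤ 1 / 10) (h : ‖U - y‖ ≤ γ) :
    ∃ φ ∈ unitary (H →L[ℂ] H), φ ∈ N ∧ ‖φ - U‖ ≤ 4 * γ := by
  have hγ0 : 0 ≤ γ := (norm_nonneg _).trans h
  have hU1 := norm_unitary_le hU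
  have hU1' : ‖star U‖ ≤ 1 := by rw [norm_star]; exact hU1
  have hy1 : ‖y‖ ≤ 1 + γ := by
    calc ‖y‖ = ‖U - (U - y)‖ := by congr 1; abel
      _ ≤ ‖U‖ + ‖U - y‖ := norm_sub_le _ _
      _ ≤ 1 + γ := add_le_add hU1 h
  have h' : ‖y - U‖ ≤ γ := by rw [norm_sub_rev]; exact h
  have h'' : ‖star (y - U)‖ ≤ γ := by rw [norm_star]; exact h'
  have e1 : ‖star y * y - 1‖ ≤ 3 * γ := by
    have h3 : star y * y - 1 = star (y - U) * y + star U * (y - U) := by
      rw [← (Unitary.mem_iff.1 hU).1, star_sub]; noncomm_ring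
    rw [h3]
    refine (norm_add_le _ _).trans ?_
    have h4 : ‖star (y - U) * y‖ ≤ γ * (1 + γ) :=
      (norm_mul_le _ _).trans (mul_le_mul h'' hy1 (norm_nonneg _) hγ0)
    have h5 : ‖star U * (y - U)‖ ≤ 1 * γ :=
      (norm_mul_le _ _).trans (mul_le_mul hU1' h' (norm_nonneg _) zero_le_one)
    nlinarith
  have e2 : ‖y * star y - 1‖ ≤ 3 * γ := by
    have h3 : y * star y - 1 = y * star (y - U) + (y - U) * star U := by
      rw [← (Unitary.mem_iff.1 hU).2, star_sub]; noncomm_ring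
    rw [h3]
    refine (norm_add_le _ _).trans ?_
    have h4 : ‖y * star (y - U)‖ ≤ (1 + γ) * γ :=
      (norm_mul_le _ _).trans (mul_le_mul hy1 h'' (norm_nonneg _) (by linarith))
    have h5 : ‖(y - U) * star U‖ ≤ γ * 1 :=
      (norm_mul_le _ _).trans (mul_le_mul h' hU1' (norm_nonneg _) hγ0)
    nlinarith
  obtain ⟨w, hw, hwT, hwc⟩ := polar_unitary (by linarith) e1 e2
  refine ⟨w, hw, ?_, ?_⟩
  · have h1 : w ∈ Set.centralizer (Set.centralizer (N : Set (H →L[ℂ] H))) := by
      rw [Set.mem_centralizer_iff]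
      intro t ht
      refine hwc t ?_ ?_
      · exact (ht y hy).symm
      · exact (ht (star y) (star_mem (s := N.toStarSubalgebra) hy)).symm
    rw [VonNeumannAlgebra.centralizer_centralizer] at h1
    exact h1
  · calc ‖w - U‖ = ‖(w - y) + (y - U)‖ := by congr 1; abel
      _ ≤ ‖w - y‖ + ‖y - U‖ := norm_add_le _ _
      _ ≤ 3 * γ + γ := add_le_add hwT h'
      _ = 4 * γ := by ring

variable {G : Type} [Group G]

theorem mean_sub {f f' : G → (H →L[ℂ] H)} (h : Bd f) (h' : Bd f') :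
    mean (fun g => f g - f' g) = mean f - mean f' := by
  have h1 : Bd (fun g => -f' g) := by
    obtain ⟨C, hC⟩ := h'
    exact ⟨C, fun g => by rw [norm_neg]; exact hC g⟩
  have h2 : mean (fun g => -f' g) = -mean f' := by
    have := mean_mul h' (-1) 1
    simpa using this
  have h3 := mean_add h h1
  rw [h2] at h3
  simpa [sub_eq_add_neg] using h3

/-- one step of the iteration -/
theorem perturb_step (hG : ∀ a b : G, a * b = b * a) (U : G →* (H →L[ℂ] H))
    (hU : ∀ g, U g ∈ unitary (H →L[ℂ] H)) (N : VonNeumannAlgebra H) {γ : ℝ} (hγ : γ ≤ 1 / 400)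
    (h : ∀ g, ∃ y ∈ N, ‖U g - y‖ ≤ γ) :
    ∃ w ∈ unitary (H →L[ℂ] H), ‖w - 1‖ ≤ 8 * γ ∧
      (∀ S, (∀ g, S * U g = U g * S) → (∀ y ∈ N, S * y = y * S) → S * w = w * S) ∧
      ∀ g, ∃ y ∈ N, ‖w * U g * star w - y‖ ≤ 200 * γ ^ 2 := by
  have hγ0 : 0 ≤ γ := by
    obtain ⟨y, _, hy⟩ := h 1
    exact (norm_nonneg _).trans hy
  have hφ : ∀ g, ∃ φ ∈ unitary (H →L[ℂ] H), φ ∈ N ∧ ‖φ - U g‖ ≤ 4 * γ := by
    intro g
    obtain ⟨y, hyN, hy⟩ := h g
    exact near_unitary N (hU g) hyN (by linarith) hy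
  choose φ hφu hφN hφ1 using hφ
  set β : ℝ := 4 * γ with hβ
  have hβ0 : 0 ≤ β := by positivity
  set b : G → (H →L[ℂ] H) := fun g => φ g * star (U g) with hb
  have hbu : ∀ g, b g ∈ unitary (H →L[ℂ] H) := fun g =>
    mul_mem (hφu g) (Unitary.star_mem (hU g))
  have hUn : ∀ g, ‖U g‖ ≤ 1 := fun g => norm_unitary_le (hU g)
  have hUn' : ∀ g, ‖star (U g)‖ ≤ 1 := fun g => by rw [norm_star]; exact hUn g
  have hb1 : ∀ g, ‖b g - 1‖ ≤ β := by
    intro g
    have h1 : b g - 1 = (φ g - U g) * star (U g) := by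
      rw [sub_mul, (Unitary.mem_iff.1 (hU g)).2]
    rw [h1]
    calc ‖(φ g - U g) * star (U g)‖ ≤ ‖φ g - U g‖ * ‖star (U g)‖ := norm_mul_le _ _
      _ ≤ β * 1 := mul_le_mul (hφ1 g) (hUn' g) (norm_nonneg _) hβ0
      _ = β := mul_one β
  have hbB : Bd b := ⟨1, fun g => norm_unitary_le (hbu g)⟩
  have hbB' : Bd (fun g => star (b g)) := ⟨1, fun g => by rw [norm_star]; exact norm_unitary_le (hbu g)⟩
  set T : H →L[ℂ] H := mean b with hT
  have hc1 : Bd (fun _ : G => (1 : H →L[ℂ] H)) := ⟨‖(1 : H →L[ℂ] H)‖, fun _ => le_rfl⟩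
  have hcc : ∀ a : H →L[ℂ] H, Bd (fun _ : G => a) := fun a => ⟨‖a‖, fun _ => le_rfl⟩
  have hT1 : ‖T - 1‖ ≤ β := by
    have h1 : T - 1 = mean (fun g => b g - 1) := by
      rw [mean_sub hbB hc1, mean_const]
    rw [h1]
    exact mean_norm hb1
  have hTs : mean (fun g => star (b g)) = star T := mean_star hbB
  have hD : ∀ g, ‖b g - T‖ ≤ 2 * β := by
    intro g
    calc ‖b g - T‖ = ‖(b g - 1) - (T - 1)‖ := by congr 1; abel
      _ ≤ ‖b g - 1‖ + ‖T - 1‖ := norm_sub_le _ _
      _ ≤ 2 * β := by linarith [hb1 g]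
  have hDs : ∀ g, ‖star (b g - T)‖ ≤ 2 * β := fun g => by rw [norm_star]; exact hD g
  -- a general computation
  have hgen : ∀ (p : G → (H →L[ℂ] H)) (q : G → (H →L[ℂ] H)) (V : H →L[ℂ] H) (P Q : H →L[ℂ] H),
      Bd p → Bd q → mean p = P → mean q = Q → ‖V‖ ≤ 1 → (∀ g, ‖p g - P‖ ≤ 2 * β) →
      (∀ g, ‖q g - Q‖ ≤ 2 * β) →
      ‖mean (fun g => p g * V * q g) - P * V * Q‖ ≤ 4 * β ^ 2 := by
    intro p q V P Q hp hq hP hQ hV hp2 hq2
    obtain ⟨Cp, hCp⟩ := hp
    obtain ⟨Cq, hCq⟩ := hq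
    have hCp0 : 0 ≤ Cp := (norm_nonneg _).trans (hCp 1)
    have hCq0 : 0 ≤ Cq := (norm_nonneg _).trans (hCq 1)
    have b1 : Bd (fun g => p g * V * q g) := by
      refine ⟨Cp * ‖V‖ * Cq, fun g => ?_⟩
      refine (norm_mul_le _ _).trans (mul_le_mul ?_ (hCq g) (norm_nonneg _) (by positivity))
      exact (norm_mul_le _ _).trans (mul_le_mul_of_nonneg_right (hCp g) (norm_nonneg _))
    have b2 : Bd (fun g => p g * V * Q) := by
      refine ⟨Cp * ‖V‖ * ‖Q‖, fun g => ?_⟩
      refine (norm_mul_le _ _).trans (mul_le_mul_of_nonneg_right ?_ (norm_nonneg _))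
      exact (norm_mul_le _ _).trans (mul_le_mul_of_nonneg_right (hCp g) (norm_nonneg _))
    have b3 : Bd (fun g => P * V * q g) := by
      refine ⟨‖P * V‖ * Cq, fun g => ?_⟩
      exact (norm_mul_le _ _).trans (mul_le_mul_of_nonneg_left (hCq g) (norm_nonneg _))
    have m2 : mean (fun g => p g * V * Q) = P * V * Q := by
      have := mean_mul ⟨Cp, hCp⟩ 1 (V * Q)
      simp only [one_mul, ← mul_assoc] at this
      rw [this, hP]
    have m3 : mean (fun g => P * V * q g) = P * V * Q := by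
      have := mean_mul ⟨Cq, hCq⟩ (P * V) 1
      simp only [mul_one] at this
      rw [this, hQ]
    have e1 : mean (fun g => (p g - P) * V * (q g - Q)) =
        mean (fun g => p g * V * q g) - P * V * Q := by
      have e2 : (fun g => (p g - P) * V * (q g - Q)) = fun g =>
          (p g * V * q g - p g * V * Q) - (P * V * q g - P * V * Q) := by
        funext g; noncomm_ring
      have b4 : Bd (fun g => p g * V * q g - p g * V * Q) := by
        obtain ⟨C1, h1⟩ := b1
        obtain ⟨C2, h2⟩ := b2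
        exact ⟨C1 + C2, fun g => (norm_sub_le _ _).trans (add_le_add (h1 g) (h2 g))⟩
      have b5 : Bd (fun g => P * V * q g - P * V * Q) := by
        obtain ⟨C1, h1⟩ := b3
        exact ⟨C1 + ‖P * V * Q‖, fun g => (norm_sub_le _ _).trans (add_le_add (h1 g) le_rfl)⟩
      rw [e2, mean_sub b4 b5, mean_sub b1 b2, mean_sub b3 (hcc _), mean_const, m2, m3]
      abel
    rw [← e1]
    refine mean_norm fun g => ?_
    calc ‖(p g - P) * V * (q g - Q)‖ ≤ ‖(p g - P) * V‖ * ‖q g - Q‖ := norm_mul_le _ _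
      _ ≤ (‖p g - P‖ * ‖V‖) * ‖q g - Q‖ :=
          mul_le_mul_of_nonneg_right (norm_mul_le _ _) (norm_nonneg _)
      _ ≤ (2 * β * 1) * (2 * β) := by
          refine mul_le_mul ?_ (hq2 g) (norm_nonneg _) (by positivity)
          exact mul_le_mul (hp2 g) hV (norm_nonneg _) (by positivity)
      _ = 4 * β ^ 2 := by ring
  have hone : ‖(1 : H →L[ℂ] H)‖ ≤ 1 := ContinuousLinearMap.norm_id_le
  have hDs' : ∀ g, ‖star (b g) - star T‖ ≤ 2 * β := fun g => by rw [← star_sub]; exact hDs g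
  have hTT : ‖T * star T - 1‖ ≤ 4 * β ^ 2 := by
    have h1 := hgen b (fun g => star (b g)) 1 T (star T) hbB hbB' rfl hTs hone hD hDs'
    have h2 : (fun g => b g * 1 * star (b g)) = fun _ : G => (1 : H →L[ℂ] H) := by
      funext g
      rw [mul_one, (Unitary.mem_iff.1 (hbu g)).2]
    rw [h2, mean_const, mul_one, norm_sub_rev] at h1
    exact h1
  have hTT' : ‖star T * T - 1‖ ≤ 4 * β ^ 2 := by
    have h1 := hgen (fun g => star (b g)) b 1 (star T) T hbB' hbB hTs rfl hone hDs' hD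
    have h2 : (fun g => star (b g) * 1 * b g) = fun _ : G => (1 : H →L[ℂ] H) := by
      funext g
      rw [mul_one, (Unitary.mem_iff.1 (hbu g)).1]
    rw [h2, mean_const, mul_one, norm_sub_rev] at h1
    exact h1
  have hβ1 : β ≤ 1 / 100 := by rw [hβ]; linarith
  have hβ2 : 4 * β ^ 2 < 1 := by nlinarith
  obtain ⟨w, hw, hwT, hwc⟩ := polar_unitary hβ2 hTT' hTT
  have hw1 := norm_unitary_le hw
  have hws1 : ‖star w‖ ≤ 1 := by rw [norm_star]; exact hw1
  refine ⟨w, hw, ?_, ?_, ?_⟩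
  · calc ‖w - 1‖ = ‖(w - T) + (T - 1)‖ := by congr 1; abel
      _ ≤ ‖w - T‖ + ‖T - 1‖ := norm_add_le _ _
      _ ≤ 4 * β ^ 2 + β := add_le_add hwT hT1
      _ ≤ 8 * γ := by rw [hβ]; nlinarith
  · intro S hS hSN
    have hSs : ∀ g, S * star (U g) = star (U g) * S := by
      intro g
      have h1 := hS g
      calc S * star (U g) = star (U g) * (U g * S) * star (U g) := by
            rw [← mul_assoc (star (U g)) (U g) S, (Unitary.mem_iff.1 (hU g)).1, one_mul]
        _ = star (U g) * (S * U g) * star (U g) := by rw [h1]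
        _ = star (U g) * S * (U g * star (U g)) := by noncomm_ring
        _ = star (U g) * S := by rw [(Unitary.mem_iff.1 (hU g)).2, mul_one]
    have hSb : ∀ g, S * b g = b g * S := by
      intro g
      show S * (φ g * star (U g)) = φ g * star (U g) * S
      rw [← mul_assoc, hSN _ (hφN g), mul_assoc, hSs g, mul_assoc]
    have hSbs : ∀ g, S * star (b g) = star (b g) * S := by
      intro g
      have h1 := hSb g
      calc S * star (b g) = star (b g) * (b g * S) * star (b g) := by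
            rw [← mul_assoc (star (b g)) (b g) S, (Unitary.mem_iff.1 (hbu g)).1, one_mul]
        _ = star (b g) * (S * b g) * star (b g) := by rw [h1]
        _ = star (b g) * S * (b g * star (b g)) := by noncomm_ring
        _ = star (b g) * S := by rw [(Unitary.mem_iff.1 (hbu g)).2, mul_one]
    refine hwc S ?_ ?_
    · have h1 := mean_mul hbB S 1
      have h2 := mean_mul hbB 1 S
      simp only [mul_one, one_mul] at h1 h2
      rw [← h1, ← h2]
      congr 1
      funext g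
      exact hSb g
    · have h1 := mean_mul hbB' S 1
      have h2 := mean_mul hbB' 1 S
      simp only [mul_one, one_mul] at h1 h2
      rw [hTs] at h1 h2
      rw [← h1, ← h2]
      congr 1
      funext g
      exact hSbs g
  · intro g0
    set p : G → (H →L[ℂ] H) := fun g => b (g0 * g) with hp
    have hpB : Bd p := ⟨1, fun g => norm_unitary_le (hbu _)⟩
    have hpm : mean p = T := mean_shift hG hbB g0
    have h1 := hgen p (fun g => star (b g)) (U g0) T (star T) hpB hbB' hpm hTs (hUn g0)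
      (fun g => hD _) hDs'
    refine ⟨mean (fun g => p g * U g0 * star (b g)), ?_, ?_⟩
    · refine mean_mem N ?_ fun g => ?_
      · refine ⟨1, fun g => ?_⟩
        exact norm_unitary_le (mul_mem (mul_mem (hbu _) (hU g0)) (Unitary.star_mem (hbu g)))
      · have h2 : p g * U g0 * star (b g) = φ (g0 * g) * star (φ g) := by
          show φ (g0 * g) * star (U (g0 * g)) * U g0 * star (φ g * star (U g)) = _
          rw [map_mul, star_mul, star_mul, star_star]
          calc φ (g0 * g) * (star (U g) * star (U g0)) * U g0 * (U g * star (φ g)) =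
              φ (g0 * g) * (star (U g) * (star (U g0) * U g0) * U g) * star (φ g) := by
                noncomm_ring
            _ = φ (g0 * g) * star (φ g) := by
              rw [(Unitary.mem_iff.1 (hU g0)).1, mul_one, (Unitary.mem_iff.1 (hU g)).1, mul_one]
        rw [h2]
        exact mul_mem (S := StarSubalgebra ℂ (H →L[ℂ] H)) (hφN _)
          (star_mem (s := N.toStarSubalgebra) (hφN g))
    · have h2 : ‖w * U g0 * star w - T * U g0 * star T‖ ≤ 8 * β ^ 2 + 16 * β ^ 4 := by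
        have h3 : w * U g0 * star w - T * U g0 * star T =
            (w - T) * U g0 * star w + T * U g0 * star (w - T) := by
          rw [star_sub]; noncomm_ring
        rw [h3]
        have hT2 : ‖T‖ ≤ 1 + 4 * β ^ 2 := by
          calc ‖T‖ = ‖w - (w - T)‖ := by congr 1; abel
            _ ≤ ‖w‖ + ‖w - T‖ := norm_sub_le _ _
            _ ≤ 1 + 4 * β ^ 2 := add_le_add hw1 hwT
        have h4 : ‖(w - T) * U g0 * star w‖ ≤ 4 * β ^ 2 := by
          calc ‖(w - T) * U g0 * star w‖ ≤ ‖(w - T) * U g0‖ * ‖star w‖ := norm_mul_le _ _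
            _ ≤ (‖w - T‖ * ‖U g0‖) * ‖star w‖ :=
                mul_le_mul_of_nonneg_right (norm_mul_le _ _) (norm_nonneg _)
            _ ≤ (4 * β ^ 2 * 1) * 1 := by
                refine mul_le_mul ?_ hws1 (norm_nonneg _) (by positivity)
                exact mul_le_mul hwT (hUn g0) (norm_nonneg _) (by positivity)
            _ = 4 * β ^ 2 := by ring
        have h5 : ‖T * U g0 * star (w - T)‖ ≤ (1 + 4 * β ^ 2) * (4 * β ^ 2) := by
          have h6 : ‖star (w - T)‖ ≤ 4 * β ^ 2 := by rw [norm_star]; exact hwT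
          calc ‖T * U g0 * star (w - T)‖ ≤ ‖T * U g0‖ * ‖star (w - T)‖ := norm_mul_le _ _
            _ ≤ (‖T‖ * ‖U g0‖) * ‖star (w - T)‖ :=
                mul_le_mul_of_nonneg_right (norm_mul_le _ _) (norm_nonneg _)
            _ ≤ ((1 + 4 * β ^ 2) * 1) * (4 * β ^ 2) := by
                refine mul_le_mul ?_ h6 (norm_nonneg _) (by positivity)
                exact mul_le_mul hT2 (hUn g0) (norm_nonneg _) (by positivity)
            _ = _ := by ring
        calc _ ≤ ‖(w - T) * U g0 * star w‖ + ‖T * U g0 * star (w - T)‖ := norm_add_le _ _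
          _ ≤ 4 * β ^ 2 + (1 + 4 * β ^ 2) * (4 * β ^ 2) := add_le_add h4 h5
          _ = 8 * β ^ 2 + 16 * β ^ 4 := by ring
      have h3 : w * U g0 * star w - mean (fun g => p g * U g0 * star (b g)) =
          (w * U g0 * star w - T * U g0 * star T) -
            (mean (fun g => p g * U g0 * star (b g)) - T * U g0 * star T) := by abel
      rw [h3]
      refine (norm_sub_le _ _).trans ?_
      refine (add_le_add h2 h1).trans ?_
      have h4 : β ^ 4 ≤ β ^ 2 / 10000 := by
        have : β ^ 2 ≤ 1 / 10000 := by nlinarith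
        nlinarith [sq_nonneg β]
      have h5 : β ^ 2 = 16 * γ ^ 2 := by rw [hβ]; ring
      nlinarith [sq_nonneg γ]

end Pool.Agent.W663.KK
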