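import Pool.Agent.W663.KK.Perturb

set_option autoImplicit false
set_option linter.unusedSectionVars false

open Filter Topology
open scoped InnerProductSpace

namespace Pool.Agent.W663.KK

variable {H : Type} [NormedAddCommGroup H] [InnerProductSpace ℂ H] [CompleteSpace H]

theorem mem_of_tendsto_vn (N : VonNeumannAlgebra H) {y : ℕ → (H →L[ℂ] H)} {X : H →L[ℂ] H}
    (hy : ∀ n, y n ∈ N) (h : Tendsto y atTop (𝓝 X)) : X ∈ N := by
  have h1 : X ∈ Set.centralizer (Set.centralizer (N : Set (H →L[ℂ] H))) := by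
    rw [Set.mem_centralizer_iff]
    intro t ht
    have h2 : Tendsto (fun n => t * y n) atTop (𝓝 (t * X)) := h.const_mul t
    have h3 : Tendsto (fun n => y n * t) atTop (𝓝 (X * t)) := h.mul_const t
    refine tendsto_nhds_unique h2 (h3.congr fun n => ?_)
    exact ht (y n) (hy n)
  rw [VonNeumannAlgebra.centralizer_centralizer] at h1
  exact h1

variable {G : Type} [Group G]

/-- the state of the iteration -/
def PP (U : G →* (H →L[ℂ] H)) (N : VonNeumannAlgebra H) (γ : ℝ) (n : ℕ) (v : H →L[ℂ] H) : Prop :=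
  v ∈ unitary (H →L[ℂ] H) ∧
    (∀ S, (∀ g, S * U g = U g * S) → (∀ y ∈ N, S * y = y * S) → S * v = v * S) ∧
      ∀ g, ∃ y ∈ N, ‖v * U g * star v - y‖ ≤ γ * (1 / 2) ^ n

theorem PP_step (hG : ∀ a b : G, a * b = b * a) (U : G →* (H →L[ℂ] H))
    (hU : ∀ g, U g ∈ unitary (H →L[ℂ] H)) (N : VonNeumannAlgebra H) {γ : ℝ} (hγ0 : 0 ≤ γ)
    (hγ : γ ≤ 1 / 400) (n : ℕ) (v : H →L[ℂ] H) (hv : PP U N γ n v) :
    ∃ v', PP U N γ (n + 1) v' ∧ ‖v' - v‖ ≤ (8 * γ) * (1 / 2) ^ n := by
  obtain ⟨hvu, hvc, hvN⟩ := hv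
  have hvv := (Unitary.mem_iff.1 hvu).1
  have hvv' := (Unitary.mem_iff.1 hvu).2
  let U' : G →* (H →L[ℂ] H) :=
    { toFun := fun g => v * U g * star v
      map_one' := by rw [map_one, mul_one, hvv']
      map_mul' := fun a b => by
        rw [map_mul]
        calc v * (U a * U b) * star v = v * U a * 1 * U b * star v := by noncomm_ring
          _ = v * U a * (star v * v) * U b * star v := by rw [hvv]
          _ = v * U a * star v * (v * U b * star v) := by noncomm_ring }
  have hU' : ∀ g, U' g ∈ unitary (H →L[ℂ] H) := fun g =>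
    mul_mem (mul_mem hvu (hU g)) (Unitary.star_mem hvu)
  have hpow : (0 : ℝ) < (1 / 2) ^ n := by positivity
  have hpow1 : ((1 : ℝ) / 2) ^ n ≤ 1 := pow_le_one₀ (by norm_num) (by norm_num)
  have hγn : γ * (1 / 2) ^ n ≤ 1 / 400 := by nlinarith
  have hγn0 : 0 ≤ γ * (1 / 2) ^ n := by positivity
  obtain ⟨w, hw, hw1, hwc, hwN⟩ := perturb_step hG U' hU' N hγn hvN
  have hcomm : ∀ S, (∀ g, S * U g = U g * S) → (∀ y ∈ N, S * y = y * S) → S * w = w * S := by
    intro S hS hSN
    refine hwc S (fun g => ?_) hSN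
    have h1 := hvc S hS hSN
    have h2 : S * star v = star v * S := by
      calc S * star v = star v * (v * S) * star v := by
            rw [← mul_assoc (star v) v S, hvv, one_mul]
        _ = star v * (S * v) * star v := by rw [h1]
        _ = star v * S * (v * star v) := by noncomm_ring
        _ = star v * S := by rw [hvv', mul_one]
    show S * (v * U g * star v) = v * U g * star v * S
    calc S * (v * U g * star v) = (S * v) * U g * star v := by noncomm_ring
      _ = v * (S * U g) * star v := by rw [h1]; noncomm_ring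
      _ = v * U g * (S * star v) := by rw [hS g]; noncomm_ring
      _ = v * U g * star v * S := by rw [h2]; noncomm_ring
  refine ⟨w * v, ⟨mul_mem hw hvu, ?_, ?_⟩, ?_⟩
  · intro S hS hSN
    rw [← mul_assoc, hcomm S hS hSN, mul_assoc, hvc S hS hSN, mul_assoc]
  · intro g
    obtain ⟨y, hyN, hy⟩ := hwN g
    refine ⟨y, hyN, ?_⟩
    have h1 : w * v * U g * star (w * v) = w * U' g * star w := by
      show w * v * U g * star (w * v) = w * (v * U g * star v) * star w
      rw [star_mul]; noncomm_ring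
    rw [h1]
    refine hy.trans ?_
    set a : ℝ := γ * (1 / 2) ^ n with ha
    have h2 : γ * (1 / 2) ^ (n + 1) = a / 2 := by rw [ha, pow_succ]; ring
    rw [h2]
    nlinarith
  · have h1 : w * v - v = (w - 1) * v := by noncomm_ring
    rw [h1]
    calc ‖(w - 1) * v‖ ≤ ‖w - 1‖ * ‖v‖ := norm_mul_le _ _
      _ ≤ (8 * (γ * (1 / 2) ^ n)) * 1 :=
          mul_le_mul hw1 (norm_unitary_le hvu) (norm_nonneg _) (by positivity)
      _ = _ := by ring

/-- a bounded group of unitaries near `N` can be moved into `N` by a unitary near `1` -/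
theorem perturb (hG : ∀ a b : G, a * b = b * a) (U : G →* (H →L[ℂ] H))
    (hU : ∀ g, U g ∈ unitary (H →L[ℂ] H)) (N : VonNeumannAlgebra H) {γ : ℝ} (hγ : γ ≤ 1 / 400)
    (h : ∀ g, ∃ y ∈ N, ‖U g - y‖ ≤ γ) :
    ∃ w ∈ unitary (H →L[ℂ] H), ‖w - 1‖ ≤ 16 * γ ∧
      (∀ S, (∀ g, S * U g = U g * S) → (∀ y ∈ N, S * y = y * S) → S * w = w * S) ∧
      ∀ g, w * U g * star w ∈ N := by
  classical
  have hγ0 : 0 ≤ γ := by
    obtain ⟨y, _, hy⟩ := h 1
    exact (norm_nonneg _).trans hy
  have h0 : PP U N γ 0 1 := by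
    refine ⟨one_mem _, fun S _ _ => by rw [mul_one, one_mul], fun g => ?_⟩
    obtain ⟨y, hyN, hy⟩ := h g
    exact ⟨y, hyN, by simpa using hy⟩
  choose! F hF1 hF2 using fun n v => PP_step hG U hU N hγ0 hγ n v
  let v : ℕ → (H →L[ℂ] H) := fun n => Nat.rec 1 (fun k x => F k x) n
  have hv0 : v 0 = 1 := rfl
  have hvs : ∀ n, v (n + 1) = F n (v n) := fun n => rfl
  have hvP : ∀ n, PP U N γ n (v n) := by
    intro n
    induction n with
    | zero => exact h0
    | succ n ih => rw [hvs]; exact hF1 n _ ih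
  have hvd : ∀ n, dist (v n) (v (n + 1)) ≤ (8 * γ) * (1 / 2) ^ n := by
    intro n
    rw [hvs, dist_comm, dist_eq_norm]
    exact hF2 n _ (hvP n)
  have hcau := cauchySeq_of_le_geometric (1 / 2) (8 * γ) (by norm_num) hvd
  obtain ⟨w, hw⟩ := cauchySeq_tendsto_of_complete hcau
  have hdist := dist_le_of_le_geometric_of_tendsto₀ (1 / 2) (8 * γ) (by norm_num) hvd hw
  have hstar : Tendsto (fun n => star (v n)) atTop (𝓝 (star w)) :=
    (continuous_star.tendsto w).comp hw
  refine ⟨w, ?_, ?_, ?_, ?_⟩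
  · refine Unitary.mem_iff.2 ⟨?_, ?_⟩
    · refine tendsto_nhds_unique (hstar.mul hw) ?_
      refine tendsto_const_nhds.congr fun n => ?_
      exact (Unitary.mem_iff.1 (hvP n).1).1.symm
    · refine tendsto_nhds_unique (hw.mul hstar) ?_
      refine tendsto_const_nhds.congr fun n => ?_
      exact (Unitary.mem_iff.1 (hvP n).1).2.symm
  · rw [hv0, dist_comm, dist_eq_norm] at hdist
    refine hdist.trans (le_of_eq ?_)
    ring
  · intro S hS hSN
    refine tendsto_nhds_unique (hw.const_mul S) ((hw.mul_const S).congr fun n => ?_)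
    exact ((hvP n).2.1 S hS hSN).symm
  · intro g
    choose y hyN hy using fun n => (hvP n).2.2 g
    have h1 : Tendsto (fun n => v n * U g * star (v n)) atTop (𝓝 (w * U g * star w)) :=
      (hw.mul_const (U g)).mul hstar
    have h2 : Tendsto (fun n => v n * U g * star (v n) - y n) atTop (𝓝 0) := by
      refine squeeze_zero_norm hy ?_
      have h3 := (tendsto_pow_atTop_nhds_zero_of_lt_one (by norm_num : (0 : ℝ) ≤ 1 / 2)
        (by norm_num)).const_mul γ
      rwa [mul_zero] at h3
    have h3 : Tendsto y atTop (𝓝 (w * U g * star w)) := by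
      have h4 := h1.sub h2
      rw [sub_zero] at h4
      refine h4.congr fun n => ?_
      abel
    exact mem_of_tendsto_vn N hyN h3

end Pool.Agent.W663.KK
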