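import Pool.Agent.Results.MP_9dc4d2_an.AllSimilar

set_option autoImplicit false
set_option linter.unusedSectionVars false

open Filter Topology
open scoped InnerProductSpace

namespace Pool.Agent.W663.KK

variable {H : Type} [NormedAddCommGroup H] [InnerProductSpace ℂ H] [CompleteSpace H]

theorem vn_isClosed (M : VonNeumannAlgebra H) :
    IsClosed (M.toStarSubalgebra : Set (H →L[ℂ] H)) := by
  have h : (M.toStarSubalgebra : Set (H →L[ℂ] H)) =
      ⋂ t ∈ Set.centralizer (M : Set (H →L[ℂ] H)), {x | t * x = x * t} := by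
    ext x
    simp only [Set.mem_iInter]
    constructor
    · intro hx t ht
      exact (ht x hx).symm
    · intro hx
      have : x ∈ Set.centralizer (Set.centralizer (M : Set (H →L[ℂ] H))) := fun t ht => hx t ht
      rw [VonNeumannAlgebra.centralizer_centralizer] at this
      exact this
  rw [h]
  exact isClosed_biInter fun t _ => isClosed_eq (by fun_prop) (by fun_prop)

/-- the C*-algebra structure of a von Neumann algebra -/
@[reducible] noncomputable def cstarOf (M : VonNeumannAlgebra H) :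
    CStarAlgebra M.toStarSubalgebra :=
  StarSubalgebra.cstarAlgebra M.toStarSubalgebra (h_closed := vn_isClosed M)

abbrev E2 (H : Type) : Type := WithLp 2 (H × H)

noncomputable def Φ (H : Type) [NormedAddCommGroup H] [InnerProductSpace ℂ H] :
    E2 H ≃L[ℂ] H × H := WithLp.prodContinuousLinearEquiv 2 ℂ H H

noncomputable def J1 (H : Type) [NormedAddCommGroup H] [InnerProductSpace ℂ H] : H →L[ℂ] E2 H :=
  (Φ H).symm.toContinuousLinearMap ∘L ContinuousLinearMap.inl ℂ H H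
noncomputable def J2 (H : Type) [NormedAddCommGroup H] [InnerProductSpace ℂ H] : H →L[ℂ] E2 H :=
  (Φ H).symm.toContinuousLinearMap ∘L ContinuousLinearMap.inr ℂ H H
noncomputable def P1 (H : Type) [NormedAddCommGroup H] [InnerProductSpace ℂ H] : E2 H →L[ℂ] H :=
  ContinuousLinearMap.fst ℂ H H ∘L (Φ H).toContinuousLinearMap
noncomputable def P2 (H : Type) [NormedAddCommGroup H] [InnerProductSpace ℂ H] : E2 H →L[ℂ] H :=
  ContinuousLinearMap.snd ℂ H H ∘L (Φ H).toContinuousLinearMap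

theorem P1J1 (x : H) : P1 H (J1 H x) = x := rfl
theorem P2J2 (x : H) : P2 H (J2 H x) = x := rfl
theorem P1J2 (x : H) : P1 H (J2 H x) = 0 := rfl
theorem P2J1 (x : H) : P2 H (J1 H x) = 0 := rfl
theorem J1P1 (z : E2 H) : J1 H (P1 H z) + J2 H (P2 H z) = z := by
  apply (Φ H).injective
  rw [map_add]
  show ((P1 H z, (0 : H)) + ((0 : H), P2 H z) : H × H) = Φ H z
  rw [Prod.mk_add_mk, add_zero, zero_add]
  rfl

theorem norm_J1 (x : H) : ‖J1 H x‖ = ‖x‖ := by
  have h := WithLp.prod_norm_sq_eq_of_L2 (J1 H x)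
  have h1 : ‖J1 H x‖ ^ 2 = ‖x‖ ^ 2 := by
    rw [h]
    show ‖x‖ ^ 2 + ‖(0 : H)‖ ^ 2 = ‖x‖ ^ 2
    simp
  exact (sq_eq_sq₀ (norm_nonneg _) (norm_nonneg _)).1 h1

theorem norm_J2 (x : H) : ‖J2 H x‖ = ‖x‖ := by
  have h := WithLp.prod_norm_sq_eq_of_L2 (J2 H x)
  have h1 : ‖J2 H x‖ ^ 2 = ‖x‖ ^ 2 := by
    rw [h]
    show ‖(0 : H)‖ ^ 2 + ‖x‖ ^ 2 = ‖x‖ ^ 2
    simp
  exact (sq_eq_sq₀ (norm_nonneg _) (norm_nonneg _)).1 h1

theorem norm_P1 (z : E2 H) : ‖P1 H z‖ ≤ ‖z‖ := by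
  have h := WithLp.prod_norm_sq_eq_of_L2 z
  have h1 : ‖P1 H z‖ ^ 2 ≤ ‖z‖ ^ 2 := by
    rw [h]
    show ‖P1 H z‖ ^ 2 ≤ ‖P1 H z‖ ^ 2 + ‖P2 H z‖ ^ 2
    nlinarith [sq_nonneg ‖P2 H z‖]
  exact (sq_le_sq₀ (norm_nonneg _) (norm_nonneg _)).1 h1

theorem norm_P2 (z : E2 H) : ‖P2 H z‖ ≤ ‖z‖ := by
  have h := WithLp.prod_norm_sq_eq_of_L2 z
  have h1 : ‖P2 H z‖ ^ 2 ≤ ‖z‖ ^ 2 := by
    rw [h]
    show ‖P2 H z‖ ^ 2 ≤ ‖P1 H z‖ ^ 2 + ‖P2 H z‖ ^ 2
    nlinarith [sq_nonneg ‖P1 H z‖]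
  exact (sq_le_sq₀ (norm_nonneg _) (norm_nonneg _)).1 h1

theorem inner_E2 (z w : E2 H) : ⟪z, w⟫_ℂ = ⟪P1 H z, P1 H w⟫_ℂ + ⟪P2 H z, P2 H w⟫_ℂ := by
  rw [WithLp.prod_inner_apply]
  rfl

theorem adj_J1 : ContinuousLinearMap.adjoint (J1 H) = P1 H := by
  symm
  rw [ContinuousLinearMap.eq_adjoint_iff]
  intro z x
  rw [inner_E2 z (J1 H x), P1J1, P2J1, inner_zero_right, add_zero]

theorem adj_J2 : ContinuousLinearMap.adjoint (J2 H) = P2 H := by
  symm
  rw [ContinuousLinearMap.eq_adjoint_iff]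
  intro z x
  rw [inner_E2 z (J2 H x), P1J2, P2J2, inner_zero_right, zero_add]

/-- the upper triangular matrix `[[x, y], [0, x]]` -/
noncomputable def tri (x y : H →L[ℂ] H) : E2 H →L[ℂ] E2 H :=
  J1 H ∘L x ∘L P1 H + J2 H ∘L x ∘L P2 H + J1 H ∘L y ∘L P2 H

theorem tri_apply (x y : H →L[ℂ] H) (z : E2 H) :
    tri x y z = J1 H (x (P1 H z)) + J2 H (x (P2 H z)) + J1 H (y (P2 H z)) := rfl

theorem P1_tri (x y : H →L[ℂ] H) (z : E2 H) : P1 H (tri x y z) = x (P1 H z) + y (P2 H z) := by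
  rw [tri_apply, map_add, map_add, P1J1, P1J2, P1J1, add_zero]

theorem P2_tri (x y : H →L[ℂ] H) (z : E2 H) : P2 H (tri x y z) = x (P2 H z) := by
  rw [tri_apply, map_add, map_add, P2J1, P2J2, P2J1, add_zero, zero_add]

theorem ext_E2 {z w : E2 H} (h1 : P1 H z = P1 H w) (h2 : P2 H z = P2 H w) : z = w := by
  rw [← J1P1 z, ← J1P1 w, h1, h2]

theorem tri_mul (x y x' y' : H →L[ℂ] H) :
    tri x y * tri x' y' = tri (x * x') (x * y' + y * x') := by
  ext z
  · apply ext_E2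
    · rw [mul_apply_eq_comp, P1_tri, P1_tri, P2_tri, P1_tri, map_add]
      show _ = x (x' (P1 H z)) + (x (y' (P2 H z)) + y (x' (P2 H z)))
      abel
    · rw [mul_apply_eq_comp, P2_tri, P2_tri, P2_tri]
      rfl

theorem tri_one : tri (1 : H →L[ℂ] H) 0 = 1 := by
  ext z
  apply ext_E2
  · rw [P1_tri]
    show P1 H z + 0 = P1 H z
    rw [add_zero]
  · rw [P2_tri]; rfl

theorem tri_add (x y x' y' : H →L[ℂ] H) : tri x y + tri x' y' = tri (x + x') (y + y') := by
  ext z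
  apply ext_E2
  · rw [add_apply, map_add, P1_tri, P1_tri, P1_tri, add_apply, add_apply]; abel
  · rw [add_apply, map_add, P2_tri, P2_tri, P2_tri, add_apply]

theorem tri_smul (c : ℂ) (x y : H →L[ℂ] H) : c • tri x y = tri (c • x) (c • y) := by
  ext z
  apply ext_E2
  · rw [smul_apply, map_smul, P1_tri, P1_tri, smul_apply, smul_apply, smul_add]
  · rw [smul_apply, map_smul, P2_tri, P2_tri, smul_apply]

theorem tri_zero : tri (0 : H →L[ℂ] H) 0 = 0 := by
  ext z
  apply ext_E2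
  · rw [P1_tri]
    show (0 : H) + 0 = P1 H 0
    rw [add_zero, map_zero]
  · rw [P2_tri]
    show (0 : H) = P2 H 0
    rw [map_zero]

theorem tri_norm (x y : H →L[ℂ] H) : ‖tri x y‖ ≤ 2 * ‖x‖ + ‖y‖ := by
  refine ContinuousLinearMap.opNorm_le_bound _ (by positivity) fun z => ?_
  rw [tri_apply]
  refine (norm_add_le _ _).trans ?_
  have h1 : ‖J1 H (x (P1 H z))‖ ≤ ‖x‖ * ‖z‖ := by
    rw [norm_J1]
    exact (x.le_opNorm _).trans (mul_le_mul_of_nonneg_left (norm_P1 z) (norm_nonneg _))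
  have h2 : ‖J2 H (x (P2 H z))‖ ≤ ‖x‖ * ‖z‖ := by
    rw [norm_J2]
    exact (x.le_opNorm _).trans (mul_le_mul_of_nonneg_left (norm_P2 z) (norm_nonneg _))
  have h3 : ‖J1 H (y (P2 H z))‖ ≤ ‖y‖ * ‖z‖ := by
    rw [norm_J1]
    exact (y.le_opNorm _).trans (mul_le_mul_of_nonneg_left (norm_P2 z) (norm_nonneg _))
  calc _ ≤ (‖x‖ * ‖z‖ + ‖x‖ * ‖z‖) + ‖y‖ * ‖z‖ :=
        add_le_add ((norm_add_le _ _).trans (add_le_add h1 h2)) h3
    _ = _ := by ring

/-- the universal constant -/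
noncomputable def BB : ℝ := 864 * (2 * 3) ^ 29

theorem BB_pos : 0 < BB := by unfold BB; positivity

/-- **Distance to the commutant.** -/
theorem near_commutant (M : VonNeumannAlgebra H) (T : H →L[ℂ] H) {ε : ℝ} (hε : 0 < ε)
    (h : ∀ x ∈ M, ‖x‖ ≤ 1 → ‖T * x - x * T‖ ≤ ε) :
    ∃ S : H →L[ℂ] H, (∀ x ∈ M, S * x = x * S) ∧ ‖T - S‖ ≤ BB ^ 2 * ε := by
  classical
  let _inst : CStarAlgebra M.toStarSubalgebra := cstarOf M
  -- homogeneity
  have h' : ∀ x ∈ M, ‖T * x - x * T‖ ≤ ε * ‖x‖ := by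
    intro x hx
    rcases (norm_nonneg x).eq_or_lt with h0 | h0
    · have : x = 0 := norm_eq_zero.1 h0.symm
      subst this
      simp
    · have hc : ((‖x‖ : ℝ) : ℂ) ≠ 0 := by exact_mod_cast h0.ne'
      have h1 := h ((((‖x‖ : ℝ) : ℂ)⁻¹) • x) (M.toStarSubalgebra.smul_mem hx _) (by
        rw [norm_smul, norm_inv, Complex.norm_real, norm_norm, inv_mul_cancel₀ h0.ne'])
      have h2 : T * ((((‖x‖ : ℝ) : ℂ)⁻¹) • x) - ((((‖x‖ : ℝ) : ℂ)⁻¹) • x) * T =
          (((‖x‖ : ℝ) : ℂ)⁻¹) • (T * x - x * T) := by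
        rw [mul_smul_comm, smul_mul_assoc, smul_sub]
      rw [h2, norm_smul, norm_inv, Complex.norm_real, norm_norm, inv_mul_le_iff₀ h0] at h1
      linarith
  set s : ℂ := ((ε : ℝ) : ℂ)⁻¹ with hs
  have hεc : ((ε : ℝ) : ℂ) ≠ 0 := by exact_mod_cast hε.ne'
  have hs0 : s ≠ 0 := inv_ne_zero hεc
  let D : (H →L[ℂ] H) → (H →L[ℂ] H) := fun x => T * x - x * T
  let ρ : M.toStarSubalgebra →ₐ[ℂ] (E2 H →L[ℂ] E2 H) :=
    { toFun := fun x => tri (x : H →L[ℂ] H) (s • D x)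
      map_one' := by
        have : D ((1 : M.toStarSubalgebra) : H →L[ℂ] H) = 0 := by
          show T * 1 - 1 * T = 0
          rw [mul_one, one_mul, sub_self]
        rw [this, smul_zero]
        exact tri_one
      map_mul' := fun x y => by
        rw [tri_mul]
        congr 1
        show s • (T * ((x : H →L[ℂ] H) * y) - (x : H →L[ℂ] H) * y * T) =
          (x : H →L[ℂ] H) * (s • (T * y - y * T)) + (s • (T * x - x * T)) * (y : H →L[ℂ] H)
        rw [mul_smul_comm, smul_mul_assoc, ← smul_add]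
        congr 1
        noncomm_ring
      map_zero' := by
        have : D ((0 : M.toStarSubalgebra) : H →L[ℂ] H) = 0 := by
          show T * 0 - 0 * T = 0
          rw [mul_zero, zero_mul, sub_self]
        rw [this, smul_zero]
        exact tri_zero
      map_add' := fun x y => by
        rw [tri_add]
        congr 1
        show s • (T * ((x : H →L[ℂ] H) + y) - ((x : H →L[ℂ] H) + y) * T) =
          s • (T * x - x * T) + s • (T * y - y * T)
        rw [← smul_add]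
        congr 1
        noncomm_ring
      commutes' := fun c => by
        have h1 : ((algebraMap ℂ M.toStarSubalgebra c : M.toStarSubalgebra) : H →L[ℂ] H) =
            c • (1 : H →L[ℂ] H) := by
          rw [Algebra.algebraMap_eq_smul_one]; rfl
        have h2 : D ((algebraMap ℂ M.toStarSubalgebra c : M.toStarSubalgebra) : H →L[ℂ] H) = 0 := by
          rw [h1]
          show T * (c • 1) - (c • 1) * T = 0
          rw [mul_smul_comm, smul_mul_assoc, mul_one, one_mul, sub_self]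
        rw [h2, smul_zero, h1, Algebra.algebraMap_eq_smul_one, ← tri_one, tri_smul, smul_zero] }
  have hρ : ∀ x : M.toStarSubalgebra, ρ x = tri (x : H →L[ℂ] H) (s • D x) := fun x => rfl
  have hbound : ∀ x : M.toStarSubalgebra, ‖ρ x‖ ≤ 3 * ‖x‖ := by
    intro x
    rw [hρ]
    refine (tri_norm _ _).trans ?_
    have h1 : ‖s • D (x : H →L[ℂ] H)‖ ≤ ‖(x : H →L[ℂ] H)‖ := by
      rw [norm_smul, hs, norm_inv, Complex.norm_real, Real.norm_eq_abs, abs_of_pos hε,
        inv_mul_le_iff₀ hε]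
      exact h' _ x.2
    have h2 : ‖x‖ = ‖(x : H →L[ℂ] H)‖ := rfl
    rw [h2]
    linarith
  obtain ⟨ξ, hξ1, hξ2, hξ3⟩ := Pool.Agent.Results.MP_9dc4d2_an.AllSimilar.result
    M.toStarSubalgebra (E2 H) ρ 3 (by norm_num) hbound
  set X : E2 H →L[ℂ] E2 H := (ξ : E2 H →L[ℂ] E2 H) with hX
  set Y : E2 H →L[ℂ] E2 H := ((ξ⁻¹ : (E2 H →L[ℂ] E2 H)ˣ) : E2 H →L[ℂ] E2 H) with hY
  have hXY : X * Y = 1 := Units.mul_inv ξ
  have hYX : Y * X = 1 := Units.inv_mul ξ
  have hB : (864 * (2 * 3) ^ 29 : ℝ) = BB := rfl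
  rw [hB] at hξ1 hξ2
  -- P ρ(x*) = ρ(x)* P
  have hP : ∀ x : M.toStarSubalgebra, star X * X * ρ (star x) = star (ρ x) * (star X * X) := by
    intro x
    have h1 := hξ3 x
    rw [star_mul, star_mul] at h1
    have hYX' : star X * star Y = 1 := by rw [← star_mul, hYX, star_one]
    calc star X * X * ρ (star x) = star X * (X * ρ (star x) * (Y * X)) := by
          rw [hYX]; noncomm_ring
      _ = star X * (X * ρ (star x) * Y) * X := by noncomm_ring
      _ = star X * (star Y * (star (ρ x) * star X)) * X := by rw [h1]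
      _ = (star X * star Y) * star (ρ x) * (star X * X) := by noncomm_ring
      _ = star (ρ x) * (star X * X) := by rw [hYX', one_mul]
  -- compressions
  set a : H →L[ℂ] H := P1 H ∘L (star X * X) ∘L J1 H with ha
  set b : H →L[ℂ] H := P1 H ∘L (star X * X) ∘L J2 H with hb
  have hcomp : ∀ (x : M.toStarSubalgebra) (z : E2 H),
      P1 H (star (ρ x) z) = (star (x : H →L[ℂ] H)) (P1 H z) := by
    intro x z
    apply ext_inner_left ℂ
    intro v
    have h1 : ⟪v, P1 H (star (ρ x) z)⟫_ℂ = ⟪ρ x (J1 H v), z⟫_ℂ := by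
      rw [← adj_J1, ContinuousLinearMap.adjoint_inner_right, ContinuousLinearMap.star_eq_adjoint,
        ContinuousLinearMap.adjoint_inner_right]
    rw [h1, hρ, tri_apply, P1J1, P2J1, map_zero, map_zero, map_zero, map_zero, add_zero, add_zero,
      ContinuousLinearMap.star_eq_adjoint, ContinuousLinearMap.adjoint_inner_right, ← adj_J1,
      ContinuousLinearMap.adjoint_inner_right]
  have hac : ∀ x : M.toStarSubalgebra, a * ((star x : M.toStarSubalgebra) : H →L[ℂ] H) =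
      star (x : H →L[ℂ] H) * a := by
    intro x
    ext v
    have h1 := congrArg (fun Z : E2 H →L[ℂ] E2 H => P1 H (Z (J1 H v))) (hP x)
    simp only [mul_apply_eq_comp] at h1
    rw [hcomp, hρ, tri_apply, P1J1, P2J1, map_zero, map_zero, map_zero, map_zero, add_zero,
      add_zero] at h1
    exact h1
  have hbc : ∀ x : M.toStarSubalgebra, b * ((star x : M.toStarSubalgebra) : H →L[ℂ] H) +
      s • (a * D ((star x : M.toStarSubalgebra) : H →L[ℂ] H)) = star (x : H →L[ℂ] H) * b := by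
    intro x
    ext v
    have h1 := congrArg (fun Z : E2 H →L[ℂ] E2 H => P1 H (Z (J2 H v))) (hP x)
    simp only [mul_apply_eq_comp] at h1
    rw [hcomp, hρ, tri_apply, P1J2, P2J2, map_zero, map_zero, zero_add, map_add, map_add,
      map_add] at h1
    have h2 : s • (P1 H ((star X) (X (J1 H (D ((star x : M.toStarSubalgebra) : H →L[ℂ] H) v))))) =
      P1 H ((star X) (X (J1 H ((s • D ((star x : M.toStarSubalgebra) : H →L[ℂ] H)) v)))) := by
      rw [smul_apply, map_smul, map_smul, map_smul, map_smul]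
    rw [← h2] at h1
    exact h1
  -- bounds
  have hlow : ∀ v : H, ‖v‖ ^ 2 ≤ BB * ‖X (J1 H v)‖ ^ 2 := by
    intro v
    have h1 : ‖J1 H v‖ ≤ ‖Y‖ * ‖X (J1 H v)‖ := by
      calc ‖J1 H v‖ = ‖(Y * X) (J1 H v)‖ := by rw [hYX]; rfl
        _ = ‖Y (X (J1 H v))‖ := rfl
        _ ≤ ‖Y‖ * ‖X (J1 H v)‖ := Y.le_opNorm _
    rw [norm_J1] at h1
    calc ‖v‖ ^ 2 ≤ (‖Y‖ * ‖X (J1 H v)‖) ^ 2 := pow_le_pow_left₀ (norm_nonneg _) h1 2
      _ = ‖Y‖ ^ 2 * ‖X (J1 H v)‖ ^ 2 := by ring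
      _ ≤ BB * ‖X (J1 H v)‖ ^ 2 := mul_le_mul_of_nonneg_right hξ2 (sq_nonneg _)
  have hav : ∀ v : H, ⟪a v, v⟫_ℂ = ((‖X (J1 H v)‖ ^ 2 : ℝ) : ℂ) := by
    intro v
    show ⟪P1 H ((star X) (X (J1 H v))), v⟫_ℂ = _
    rw [← adj_J1, ContinuousLinearMap.adjoint_inner_left, ContinuousLinearMap.star_eq_adjoint,
      ContinuousLinearMap.adjoint_inner_left, inner_self_eq_norm_sq_to_K]
    push_cast
    rfl
  have hBBp := BB_pos
  have hau : IsUnit a := by
    refine ContinuousLinearMap.isUnit_of_forall_le_norm_inner_map a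
      (c := ⟨BB⁻¹, inv_nonneg.2 hBBp.le⟩) ?_ ?_
    · exact inv_pos.2 hBBp
    · intro v
      rw [hav, Complex.norm_real, Real.norm_eq_abs, abs_of_nonneg (sq_nonneg _)]
      show ‖v‖ ^ 2 * BB⁻¹ ≤ _
      rw [← div_eq_mul_inv, div_le_iff₀ hBBp, mul_comm]
      exact hlow v
  obtain ⟨A, hA⟩ := hau
  set a' : H →L[ℂ] H := ((A⁻¹ : (H →L[ℂ] H)ˣ) : H →L[ℂ] H) with ha'
  have haa' : a * a' = 1 := by rw [← hA]; exact Units.mul_inv A
  have ha'a : a' * a = 1 := by rw [← hA]; exact Units.inv_mul A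
  have ha'n : ‖a'‖ ≤ BB := by
    refine ContinuousLinearMap.opNorm_le_bound _ hBBp.le fun v => ?_
    have h1 : ‖a' v‖ ^ 2 ≤ BB * (‖v‖ * ‖a' v‖) := by
      refine (hlow (a' v)).trans (mul_le_mul_of_nonneg_left ?_ hBBp.le)
      have h2 := hav (a' v)
      have h3 : a (a' v) = v := by
        have : (a * a') v = v := by rw [haa']; rfl
        exact this
      rw [h3] at h2
      have h4 : ‖X (J1 H (a' v))‖ ^ 2 = ‖⟪v, a' v⟫_ℂ‖ := by
        rw [h2, Complex.norm_real, Real.norm_eq_abs, abs_of_nonneg (sq_nonneg _)]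
      rw [h4]
      exact norm_inner_le_norm _ _
    rcases (norm_nonneg (a' v)).eq_or_lt with h0 | h0
    · rw [← h0]; positivity
    · have h2 : ‖a' v‖ * ‖a' v‖ ≤ ‖a' v‖ * (BB * ‖v‖) := by nlinarith
      exact le_of_mul_le_mul_left h2 h0
  have hbn : ‖b‖ ≤ BB := by
    refine ContinuousLinearMap.opNorm_le_bound _ hBBp.le fun v => ?_
    show ‖P1 H ((star X) (X (J2 H v)))‖ ≤ _
    have hX0 : ‖star X‖ = ‖X‖ := norm_star X
    calc ‖P1 H ((star X) (X (J2 H v)))‖ ≤ ‖(star X) (X (J2 H v))‖ := norm_P1 _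
      _ ≤ ‖star X‖ * (‖X‖ * ‖J2 H v‖) :=
          ((star X).le_opNorm _).trans (mul_le_mul_of_nonneg_left (X.le_opNorm _) (norm_nonneg _))
      _ = ‖X‖ ^ 2 * ‖v‖ := by rw [hX0, norm_J2]; ring
      _ ≤ BB * ‖v‖ := mul_le_mul_of_nonneg_right hξ1 (norm_nonneg _)
  -- the operator S
  have hstar : ∀ x : M.toStarSubalgebra, ((star x : M.toStarSubalgebra) : H →L[ℂ] H) =
      star (x : H →L[ℂ] H) := fun x => rfl
  have hac' : ∀ y ∈ M, a * y = y * a := by
    intro y hy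
    have h1 := hac (star ⟨y, hy⟩)
    rw [star_star] at h1
    rw [hstar, star_star] at h1
    exact h1
  have ha'c : ∀ y ∈ M, a' * y = y * a' := by
    intro y hy
    calc a' * y = a' * (y * (a * a')) := by rw [haa', mul_one]
      _ = a' * (y * a) * a' := by noncomm_ring
      _ = a' * (a * y) * a' := by rw [hac' y hy]
      _ = (a' * a) * y * a' := by noncomm_ring
      _ = y * a' := by rw [ha'a, one_mul]
  have hbc' : ∀ y ∈ M, b * y + s • (a * D y) = y * b := by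
    intro y hy
    have h1 := hbc (star ⟨y, hy⟩)
    rw [star_star] at h1
    rw [hstar, star_star] at h1
    exact h1
  refine ⟨T + ((ε : ℝ) : ℂ) • (a' * b), ?_, ?_⟩
  · intro y hy
    have h1 : D y = ((ε : ℝ) : ℂ) • (a' * (y * b - b * y)) := by
      have h2 : s • (a * D y) = y * b - b * y := by
        rw [← hbc' y hy]; abel
      rw [← h2, mul_smul_comm, smul_smul, ← mul_assoc, ha'a, one_mul, hs, mul_inv_cancel₀ hεc,
        one_smul]
    have h3 : T * y - y * T = ((ε : ℝ) : ℂ) • (a' * (y * b - b * y)) := h1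
    have h4 : a' * (y * b - b * y) = y * (a' * b) - a' * b * y := by
      rw [mul_sub, ← mul_assoc, ha'c y hy]; noncomm_ring
    rw [h4] at h3
    rw [add_mul, mul_add, smul_mul_assoc, mul_smul_comm]
    rw [smul_sub] at h3
    have h5 : T * y = y * T + (((ε : ℝ) : ℂ) • (y * (a' * b)) - ((ε : ℝ) : ℂ) • (a' * b * y)) := by
      rw [← h3]; abel
    rw [h5]
    abel
  · have h1 : T - (T + ((ε : ℝ) : ℂ) • (a' * b)) = -(((ε : ℝ) : ℂ) • (a' * b)) := by abel
    rw [h1, norm_neg, norm_smul, Complex.norm_real, Real.norm_eq_abs, abs_of_pos hε]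
    calc ε * ‖a' * b‖ ≤ ε * (BB * BB) := by
          refine mul_le_mul_of_nonneg_left ?_ hε.le
          exact (norm_mul_le _ _).trans (mul_le_mul ha'n hbn (norm_nonneg _) hBBp.le)
      _ = BB ^ 2 * ε := by ring

end Pool.Agent.W663.KK
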