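import Pool.Agent.Helper278.GroupMain
import Pool.Agent.W663.KK.Iter

set_option autoImplicit false
set_option linter.unusedSectionVars false

open Filter Topology
open scoped InnerProductSpace ComplexOrder
open Pool.Agent.Helper278

namespace Pool.Agent.W663.KK

variable {H : Type} [NormedAddCommGroup H] [InnerProductSpace ℂ H] [CompleteSpace H]

theorem mem_vn_iff (N : VonNeumannAlgebra H) (z : H →L[ℂ] H) :
    z ∈ N ↔ ∀ t ∈ Set.centralizer (N : Set (H →L[ℂ] H)), t * z = z * t := by
  constructor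
  · intro hz t ht
    exact (ht z hz).symm
  · intro hz
    have h1 : z ∈ Set.centralizer (Set.centralizer (N : Set (H →L[ℂ] H))) := fun t ht => hz t ht
    rw [VonNeumannAlgebra.centralizer_centralizer] at h1
    exact h1

theorem mem_masa_iff {N : VonNeumannAlgebra H} {D : StarSubalgebra ℂ (H →L[ℂ] H)}
    (hD : IsMasa N D) (z : H →L[ℂ] H) :
    z ∈ D ↔ ∀ t ∈ (D : Set (H →L[ℂ] H)) ∪ Set.centralizer (N : Set (H →L[ℂ] H)),
      t * z = z * t := by
  constructor
  · rintro hz t (ht | ht)
    · exact hD.comm t ht z hz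
    · exact (ht z (hD.le z hz)).symm
  · intro hz
    apply hD.max
    · exact (mem_vn_iff N z).2 fun t ht => hz t (Or.inr ht)
    · intro t ht
      exact (hz t (Or.inl ht)).symm

theorem masa_isClosed {N : VonNeumannAlgebra H} {D : StarSubalgebra ℂ (H →L[ℂ] H)}
    (hD : IsMasa N D) : IsClosed (D : Set (H →L[ℂ] H)) := by
  have h : (D : Set (H →L[ℂ] H)) =
      ⋂ t ∈ (D : Set (H →L[ℂ] H)) ∪ Set.centralizer (N : Set (H →L[ℂ] H)),
        {x | t * x = x * t} := by
    ext x
    simp only [Set.mem_iInter]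
    exact mem_masa_iff hD x
  rw [h]
  exact isClosed_biInter fun t _ => isClosed_eq (by fun_prop) (by fun_prop)

/-- the unitaries of a closed star subalgebra span it -/
theorem span_unitaries {N : VonNeumannAlgebra H} {D : StarSubalgebra ℂ (H →L[ℂ] H)}
    (hD : IsMasa N D) (S : Submodule ℂ (H →L[ℂ] H))
    (hS : ∀ u ∈ unitary (H →L[ℂ] H), u ∈ D → u ∈ S) : ∀ a ∈ D, a ∈ S := by
  let _inst : CStarAlgebra D := StarSubalgebra.cstarAlgebra D (h_closed := masa_isClosed hD)
  have h1 := CStarAlgebra.span_unitary (A := D)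
  intro a ha
  have h2 : (⟨a, ha⟩ : D) ∈ Submodule.span ℂ (unitary D : Set D) := by rw [h1]; trivial
  have h3 : Submodule.span ℂ (unitary D : Set D) ≤ S.comap D.subtype.toAlgHom.toLinearMap := by
    rw [Submodule.span_le]
    intro u hu
    have hu' := Unitary.mem_iff.1 hu
    show (u : H →L[ℂ] H) ∈ S
    exact hS _ (Unitary.mem_iff.2 ⟨congrArg Subtype.val hu'.1, congrArg Subtype.val hu'.2⟩) u.2
  exact h3 h2

/-- the unitary group of `D` -/
def UG (D : StarSubalgebra ℂ (H →L[ℂ] H)) : Subgroup (unitary (H →L[ℂ] H)) where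
  carrier := {u | (u : H →L[ℂ] H) ∈ D}
  mul_mem' := fun {a b} ha hb => D.mul_mem ha hb
  one_mem' := D.one_mem
  inv_mem' := fun {a} ha => D.star_mem' ha

theorem UG_comm {N : VonNeumannAlgebra H} {D : StarSubalgebra ℂ (H →L[ℂ] H)}
    (hD : IsMasa N D) : ∀ a b : UG D, a * b = b * a := by
  intro a b
  apply Subtype.ext
  apply Subtype.ext
  exact hD.comm _ a.2 _ b.2

/-- the inclusion -/
def UI (D : StarSubalgebra ℂ (H →L[ℂ] H)) : UG D →* (H →L[ℂ] H) where
  toFun u := ((u : unitary (H →L[ℂ] H)) : H →L[ℂ] H)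
  map_one' := rfl
  map_mul' := fun _ _ => rfl

theorem UI_unitary (D : StarSubalgebra ℂ (H →L[ℂ] H)) (u : UG D) :
    UI D u ∈ unitary (H →L[ℂ] H) := (u : unitary (H →L[ℂ] H)).2

theorem UI_mem (D : StarSubalgebra ℂ (H →L[ℂ] H)) (u : UG D) : UI D u ∈ D := u.2

theorem UI_surj (D : StarSubalgebra ℂ (H →L[ℂ] H)) {u : H →L[ℂ] H}
    (hu : u ∈ unitary (H →L[ℂ] H)) (huD : u ∈ D) : ∃ g : UG D, UI D g = u := ⟨⟨⟨u, hu⟩, huD⟩, rfl⟩

/-- commuting with the unitaries is commuting with the algebra -/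
theorem comm_of_unitaries {N : VonNeumannAlgebra H} {D : StarSubalgebra ℂ (H →L[ℂ] H)}
    (hD : IsMasa N D) (x : H →L[ℂ] H) (hx : ∀ g : UG D, x * UI D g = UI D g * x) :
    ∀ a ∈ D, x * a = a * x := by
  let S : Submodule ℂ (H →L[ℂ] H) :=
    { carrier := {a | x * a = a * x}
      add_mem' := fun {a b} ha hb => by
        show x * (a + b) = (a + b) * x
        rw [mul_add, add_mul]
        exact congrArg₂ _ ha hb
      zero_mem' := by
        show x * 0 = 0 * x
        rw [mul_zero, zero_mul]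
      smul_mem' := fun c a ha => by
        show x * (c • a) = (c • a) * x
        rw [mul_smul_comm, smul_mul_assoc]
        exact congrArg _ ha }
  exact span_unitaries hD S fun u hu huD => by
    obtain ⟨g, rfl⟩ := UI_surj D hu huD
    exact hx g

/-- averaging over the unitaries of a masa -/
theorem exists_average {N : VonNeumannAlgebra H} {D : StarSubalgebra ℂ (H →L[ℂ] H)}
    (hD : IsMasa N D) (m : H →L[ℂ] H) (hm : m ∈ N) (x : H →L[ℂ] H)
    (hx : ∀ a ∈ D, x * a = a * x) : ∃ a ∈ D, ‖a - x‖ ≤ ‖m - x‖ := by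
  let f : UG D → (H →L[ℂ] H) := fun g => UI D g * m * star (UI D g)
  have hu1 : ∀ g : UG D, UI D g * star (UI D g) = 1 := fun g =>
    (Unitary.mem_iff.1 (UI_unitary D g)).2
  have hu2 : ∀ g : UG D, star (UI D g) * UI D g = 1 := fun g =>
    (Unitary.mem_iff.1 (UI_unitary D g)).1
  have hn1 : ∀ g : UG D, ‖UI D g‖ ≤ 1 := fun g => norm_unitary_le (UI_unitary D g)
  have hn2 : ∀ g : UG D, ‖star (UI D g)‖ ≤ 1 := fun g => by rw [norm_star]; exact hn1 g
  have hconj : ∀ (g : UG D) (z : H →L[ℂ] H), ‖UI D g * z * star (UI D g)‖ ≤ ‖z‖ := by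
    intro g z
    calc _ ≤ ‖UI D g‖ * ‖z‖ * ‖star (UI D g)‖ :=
          (norm_mul_le _ _).trans (mul_le_mul_of_nonneg_right (norm_mul_le _ _) (norm_nonneg _))
      _ ≤ 1 * ‖z‖ * 1 := by
          refine mul_le_mul (mul_le_mul_of_nonneg_right (hn1 g) (norm_nonneg _)) (hn2 g)
            (norm_nonneg _) (by positivity)
      _ = ‖z‖ := by ring
  have hb : Bd f := ⟨‖m‖, fun g => hconj g m⟩
  have hfx : ∀ g, ‖f g - x‖ ≤ ‖m - x‖ := by
    intro g
    have h1 : x = UI D g * x * star (UI D g) := by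
      rw [← hx _ (UI_mem D g), mul_assoc, hu1, mul_one]
    have h2 : f g - x = UI D g * (m - x) * star (UI D g) := by
      conv_lhs => rw [h1]
      show UI D g * m * star (UI D g) - _ = _
      rw [mul_sub, sub_mul]
    rw [h2]
    exact hconj g _
  refine ⟨mean f, ?_, ?_⟩
  · apply hD.max
    · exact mean_mem N hb fun g => mul_mem (mul_mem (hD.le _ (UI_mem D g)) hm)
        (star_mem (hD.le _ (UI_mem D g)))
    · apply comm_of_unitaries hD
      intro h
      have h1 : mean (fun g => f (h * g)) = mean f := mean_shift (UG_comm hD) hb h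
      have h2 : mean (fun g => f (h * g)) = UI D h * mean f * star (UI D h) := by
        rw [← mean_mul hb]
        congr 1
        funext g
        show UI D (h * g) * m * star (UI D (h * g)) = _
        rw [map_mul, star_mul]
        show _ = UI D h * (UI D g * m * star (UI D g)) * star (UI D h)
        noncomm_ring
      rw [h1] at h2
      calc mean f * UI D h = UI D h * mean f * star (UI D h) * UI D h := by rw [← h2]
        _ = UI D h * mean f := by rw [mul_assoc, hu2, mul_one]
  · have h1 : mean f - x = mean (fun g => f g - x) := by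
      rw [mean_sub hb ⟨‖x‖, fun _ => le_rfl⟩, mean_const]
    rw [h1]
    exact mean_norm hfx

/-- a contraction argument -/
theorem mem_of_contract {E : Type*} [NormedAddCommGroup E] [NormedSpace ℂ E]
    (A C : Submodule ℂ E) (hA : IsClosed (A : Set E)) (hAC : A ≤ C) {γ : ℝ} (hγ0 : 0 ≤ γ)
    (hγ : γ < 1)
    (h : ∀ x ∈ C, ∃ a ∈ A, ‖a - x‖ ≤ γ * ‖x‖) : C ≤ A := by
  intro x hx
  have hne : (A : Set E).Nonempty := ⟨0, A.zero_mem⟩
  have hd : Metric.infDist x (A : Set E) = 0 := by
    by_contra hcon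
    have hpos : 0 < Metric.infDist x (A : Set E) :=
      lt_of_le_of_ne Metric.infDist_nonneg (Ne.symm hcon)
    set d := Metric.infDist x (A : Set E) with hdd
    have hε : 0 < (1 - γ) * d := mul_pos (by linarith) hpos
    obtain ⟨a, haA, ha⟩ := (Metric.infDist_lt_iff hne).1
      (show Metric.infDist x (A : Set E) < d + (1 - γ) * d by rw [← hdd]; linarith)
    obtain ⟨b, hbA, hb⟩ := h (x - a) (C.sub_mem hx (hAC haA))
    have h1 : d ≤ dist x (a + b) := Metric.infDist_le_dist_of_mem (A.add_mem haA hbA)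
    have h2 : dist x (a + b) = ‖b - (x - a)‖ := by
      rw [dist_eq_norm, ← norm_neg]
      congr 1
      abel
    rw [dist_eq_norm] at ha
    rw [h2] at h1
    have h3 : d ≤ γ * ‖x - a‖ := h1.trans hb
    have h4 : γ * ‖x - a‖ ≤ γ * (d + (1 - γ) * d) := mul_le_mul_of_nonneg_left ha.le hγ0
    have h5 : d ≤ γ * (d + (1 - γ) * d) := h3.trans h4
    have h6 : γ * (d + (1 - γ) * d) = d - d * (1 - γ) ^ 2 := by ring
    have h7 : 0 < d * (1 - γ) ^ 2 := by
      have : (1 - γ) ≠ 0 := by linarith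
      positivity
    linarith
  have := (hA.mem_iff_infDist_zero hne).2 hd
  exact this

/-- The transferred algebra is maximal abelian. -/
theorem conj_masa {M N : VonNeumannAlgebra H} {D : StarSubalgebra ℂ (H →L[ℂ] H)}
    (hD : IsMasa M D) {v : H →L[ℂ] H} (hv : v ∈ unitary (H →L[ℂ] H))
    (hvD : ∀ a ∈ D, v * a * star v ∈ N) {γ : ℝ} (hγ0 : 0 ≤ γ) (hγ : γ < 1)
    (hclose : ∀ y ∈ N, ∃ m ∈ M, ‖m - star v * y * v‖ ≤ γ * ‖y‖) (y : H →L[ℂ] H) (hy : y ∈ N)
    (hyc : ∀ a ∈ D, y * (v * a * star v) = v * a * star v * y) : star v * y * v ∈ D := by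
  have hvv := (Unitary.mem_iff.1 hv).1
  have hvv' := (Unitary.mem_iff.1 hv).2
  let A : Submodule ℂ (H →L[ℂ] H) := D.toSubalgebra.toSubmodule
  let C : Submodule ℂ (H →L[ℂ] H) :=
    { carrier := {x | v * x * star v ∈ N ∧ ∀ a ∈ D, x * a = a * x}
      add_mem' := fun {x x'} hx hx' => by
        refine ⟨?_, fun a ha => ?_⟩
        · rw [mul_add, add_mul]; exact add_mem hx.1 hx'.1
        · rw [add_mul, mul_add, hx.2 a ha, hx'.2 a ha]
      zero_mem' := by
        refine ⟨?_, fun a ha => ?_⟩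
        · rw [mul_zero, zero_mul]; exact zero_mem N
        · rw [mul_zero, zero_mul]
      smul_mem' := fun c x hx => by
        refine ⟨?_, fun a ha => ?_⟩
        · rw [mul_smul_comm, smul_mul_assoc]
          exact N.toStarSubalgebra.smul_mem hx.1 c
        · rw [smul_mul_assoc, mul_smul_comm, hx.2 a ha] }
  have hAC : A ≤ C := fun a ha => ⟨hvD a ha, fun b hb => hD.comm a ha b hb⟩
  have hnv : ∀ z : H →L[ℂ] H, ‖v * z * star v‖ ≤ ‖z‖ := by
    intro z
    have h1 := norm_unitary_le hv
    have h2 : ‖star v‖ ≤ 1 := by rw [norm_star]; exact h1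
    calc _ ≤ ‖v‖ * ‖z‖ * ‖star v‖ :=
          (norm_mul_le _ _).trans (mul_le_mul_of_nonneg_right (norm_mul_le _ _) (norm_nonneg _))
      _ ≤ 1 * ‖z‖ * 1 := by
          refine mul_le_mul (mul_le_mul_of_nonneg_right h1 (norm_nonneg _)) h2
            (norm_nonneg _) (by positivity)
      _ = ‖z‖ := by ring
  have hCA : C ≤ A := by
    refine mem_of_contract A C (masa_isClosed hD) hAC hγ0 hγ ?_
    intro x hx
    obtain ⟨m, hmM, hm⟩ := hclose (v * x * star v) hx.1
    have h1 : star v * (v * x * star v) * v = x := by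
      calc star v * (v * x * star v) * v = (star v * v) * x * (star v * v) := by noncomm_ring
        _ = x := by rw [hvv, one_mul, mul_one]
    rw [h1] at hm
    obtain ⟨a, haD, ha⟩ := exists_average hD m hmM x hx.2
    exact ⟨a, haD, ha.trans (hm.trans (mul_le_mul_of_nonneg_left (hnv x) hγ0))⟩
  refine hCA ⟨?_, ?_⟩
  · have h1 : v * (star v * y * v) * star v = y := by
      calc v * (star v * y * v) * star v = (v * star v) * y * (v * star v) := by noncomm_ring
        _ = y := by rw [hvv', one_mul, mul_one]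
    rw [h1]
    exact hy
  · intro a ha
    have h1 := hyc a ha
    calc star v * y * v * a = star v * (y * (v * a * star v)) * v := by
          rw [show star v * (y * (v * a * star v)) * v = star v * y * v * a * (star v * v) by
            noncomm_ring, hvv, mul_one]
      _ = star v * (v * a * star v * y) * v := by rw [h1]
      _ = (star v * v) * a * (star v * y * v) := by noncomm_ring
      _ = a * (star v * y * v) := by rw [hvv, one_mul]

end Pool.Agent.W663.KK
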