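import Pool.Agent.W663.KK.Equiv

set_option autoImplicit false
set_option linter.unusedSectionVars false

open Filter Topology
open scoped InnerProductSpace ComplexOrder
open Pool.Agent.Helper278

namespace Pool.Agent.W663.KK

variable {H : Type} [NormedAddCommGroup H] [InnerProductSpace ℂ H] [CompleteSpace H]

/-- selection of projections with prescribed values of normal functionals -/
theorem masa_select {M : VonNeumannAlgebra H} (hM : IsDiffuse M)
    {D : StarSubalgebra ℂ (H →L[ℂ] H)} (hD : IsMasa M D) {κ : Type} [Finite κ]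
    (f : κ → (H →L[ℂ] H) →ₗ[ℂ] ℂ) (hf : ∀ k, WotCont (f k)) (x : H →L[ℂ] H) (hxD : x ∈ D)
    (hx0 : x.IsPositive) (hx1 : (1 - x).IsPositive) :
    ∃ p ∈ D, star p = p ∧ p * p = p ∧ ∀ k, f k p = f k x := by
  have hinf := masa_corner_infinite M (by
    intro r hr hrr hrs hr0
    exact hM r hr hrr hrs hr0) D hD
  let X : Bool → (H →L[ℂ] H) := fun b => bif b then x else 1 - x
  obtain ⟨p, hpD, hps, hpi, -, -, hpf⟩ := lyapunov_abelian (ι := Bool) D _ (mem_masa_iff hD)
    hD.comm hinf f hf X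
    (by
      rintro (_ | _)
      · exact D.sub_mem D.one_mem hxD
      · exact hxD)
    (by
      rintro (_ | _)
      · exact hx1
      · exact hx0)
    (by
      rw [Fintype.sum_bool]
      show x + (1 - x) = 1
      abel)
  exact ⟨p true, hpD true, hps true, hpi true, fun k => hpf true k⟩

/-- a normal positive functional as a functional on all operators -/
theorem exists_nfun {N : VonNeumannAlgebra H} (T : TracialState N) :
    ∃ f : (H →L[ℂ] H) →ₗ[ℂ] ℂ, WotCont f ∧ ∀ x : Elt N, f (x : H →L[ℂ] H) = T.τ x := by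
  obtain ⟨ξ, hξ, hT⟩ := T.normal
  exact ⟨nfun ξ ξ hξ hξ, wotCont_nfun _ _ _ _, fun x => (hT x).symm⟩

theorem exists_nfun_conj {N : VonNeumannAlgebra H} (T : TracialState N) (v : H →L[ℂ] H) :
    ∃ f : (H →L[ℂ] H) →ₗ[ℂ] ℂ, WotCont f ∧ ∀ (x : H →L[ℂ] H) (hx : v * x * star v ∈ N),
      f x = T.τ ⟨v * x * star v, hx⟩ := by
  obtain ⟨ξ, hξ, hT⟩ := T.normal
  have h1 := summable_norm_apply ξ hξ (star v)
  refine ⟨nfun (fun k => (star v) (ξ k)) (fun k => (star v) (ξ k)) h1 h1,
    wotCont_nfun _ _ _ _, fun x hx => ?_⟩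
  rw [hT]
  show ∑' k, ⟪(star v) (ξ k), x ((star v) (ξ k))⟫_ℂ = ∑' k, ⟪ξ k, v (x ((star v) (ξ k)))⟫_ℂ
  congr 1
  funext k
  rw [ContinuousLinearMap.star_eq_adjoint, ContinuousLinearMap.adjoint_inner_left]

theorem trace_im_zero {N : VonNeumannAlgebra H} (T : TracialState N) (p : Elt N)
    (hp : star p = p) : T.τ p = ((T.τ p).re : ℂ) := by
  have h := (trAlg T).4 p
  rw [hp] at h
  exact (Complex.conj_eq_iff_re.1 h.symm).symm

theorem trace_proj_nonneg {N : VonNeumannAlgebra H} (T : TracialState N) (p : Elt N)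
    (hp : star p = p) (hpp : p * p = p) : 0 ≤ (T.τ p).re := by
  have h := trace_re_nonneg T p
  rwa [hp, hpp] at h

theorem trace_proj_le {N : VonNeumannAlgebra H} (T : TracialState N) (p : Elt N)
    (hp : star p = p) (hpp : p * p = p) : (T.τ p).re ≤ 1 := by
  have h := trace_proj_nonneg T (1 - p) (by rw [star_sub, star_one, hp]) (by
    rw [mul_sub, sub_mul, sub_mul, hpp, one_mul, mul_one, one_mul, sub_self, sub_zero])
  rw [map_sub, Complex.sub_re, T.map_one, Complex.one_re] at h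
  linarith

theorem half_pos {a : H →L[ℂ] H} (ha : IsSelfAdjoint a) (hn : ‖a‖ ≤ 1) :
    ((2⁻¹ : ℂ) • (1 + a)).IsPositive ∧ (1 - (2⁻¹ : ℂ) • (1 + a)).IsPositive := by
  have h3 : algebraMap ℝ (H →L[ℂ] H) ‖a‖ ≤ 1 := by
    have := algebraMap_mono (H →L[ℂ] H) hn
    simpa using this
  have h1 : -1 ≤ a := le_trans (neg_le_neg h3) ha.neg_algebraMap_norm_le_self
  have h2 : a ≤ 1 := le_trans ha.le_algebraMap_norm_self h3
  have h4 : (0 : H →L[ℂ] H) ≤ 1 + a := by
    have := neg_le_iff_add_nonneg'.1 h1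
    exact this
  have h5 : (0 : H →L[ℂ] H) ≤ 1 - a := sub_nonneg.2 h2
  have hc : (0 : ℂ) ≤ 2⁻¹ := by
    rw [Complex.le_def]
    constructor
    · norm_num
    · norm_num
  refine ⟨((ContinuousLinearMap.nonneg_iff_isPositive _).1 h4).smul_of_nonneg hc, ?_⟩
  have h6 : 1 - (2⁻¹ : ℂ) • (1 + a) = (2⁻¹ : ℂ) • (1 - a) := by module
  rw [h6]
  exact ((ContinuousLinearMap.nonneg_iff_isPositive _).1 h5).smul_of_nonneg hc

/-- two linear functionals which agree on projections of a masa -/
theorem agree_of_proj {M : VonNeumannAlgebra H} (hM : IsDiffuse M)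
    {D : StarSubalgebra ℂ (H →L[ℂ] H)} (hD : IsMasa M D)
    (f g : (H →L[ℂ] H) →ₗ[ℂ] ℂ) (hf : WotCont f) (hg : WotCont g)
    (h : ∀ p ∈ D, star p = p → p * p = p → f p = g p) : ∀ a ∈ D, f a = g a := by
  let F : Bool → (H →L[ℂ] H) →ₗ[ℂ] ℂ := fun b => bif b then f else g
  have hF : ∀ k, WotCont (F k) := by rintro (_ | _) <;> assumption
  have hpos : ∀ x ∈ D, x.IsPositive → (1 - x).IsPositive → f x = g x := by
    intro x hx h0 h1
    obtain ⟨p, hp, hps, hpp, hpf⟩ := masa_select hM hD F hF x hx h0 h1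
    have e1 : f p = f x := hpf true
    have e2 : g p = g x := hpf false
    rw [← e1, ← e2]
    exact h p hp hps hpp
  have hone : f 1 = g 1 := h 1 D.one_mem (star_one _) (mul_one 1)
  have hsa : ∀ a ∈ D, IsSelfAdjoint a → ‖a‖ ≤ 1 → f a = g a := by
    intro a ha hsa hn
    obtain ⟨h0, h1⟩ := half_pos hsa hn
    have h2 := hpos _ (D.smul_mem (D.add_mem D.one_mem ha) _) h0 h1
    rw [map_smul, map_smul, map_add, map_add, hone, smul_eq_mul, smul_eq_mul] at h2
    have h3 : (2⁻¹ : ℂ) ≠ 0 := by norm_num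
    exact add_left_cancel (mul_left_cancel₀ h3 h2)
  let S : Submodule ℂ (H →L[ℂ] H) :=
    { carrier := {a | f a = g a}
      add_mem' := fun {a b} ha hb => by
        show f (a + b) = g (a + b)
        rw [map_add, map_add]
        exact congrArg₂ _ ha hb
      zero_mem' := by
        show f 0 = g 0
        rw [map_zero, map_zero]
      smul_mem' := fun c a ha => by
        show f (c • a) = g (c • a)
        rw [map_smul, map_smul]
        exact congrArg _ ha }
  refine span_unitaries hD S fun u hu huD => ?_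
  have husD : star u ∈ D := D.star_mem' huD
  have hn := norm_unitary_le hu
  have hn' : ‖star u‖ ≤ 1 := by rw [norm_star]; exact hn
  have e1 : f ((2⁻¹ : ℂ) • (u + star u)) = g ((2⁻¹ : ℂ) • (u + star u)) := by
    refine hsa _ (D.smul_mem (D.add_mem huD husD) _) ?_ ?_
    · show star _ = _
      rw [star_smul, star_add, star_star, add_comm]
      simp
    · rw [norm_smul]
      have : ‖(2⁻¹ : ℂ)‖ = 2⁻¹ := by simp
      rw [this]
      have := norm_add_le u (star u)
      linarith
  have e2 : f ((2⁻¹ : ℂ) • (Complex.I • (u - star u))) =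
      g ((2⁻¹ : ℂ) • (Complex.I • (u - star u))) := by
    refine hsa _ (D.smul_mem (D.smul_mem (D.sub_mem huD husD) _) _) ?_ ?_
    · show star _ = _
      have hI : star Complex.I = -Complex.I := Complex.conj_I
      have h2 : star (2⁻¹ : ℂ) = 2⁻¹ := by simp
      rw [star_smul, star_smul, star_sub, star_star, hI, h2, neg_smul, ← smul_neg, neg_sub]
    · rw [norm_smul, norm_smul]
      have h1 : ‖(2⁻¹ : ℂ)‖ = 2⁻¹ := by simp
      have h2 : ‖Complex.I‖ = 1 := Complex.norm_I
      rw [h1, h2]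
      have := norm_sub_le u (star u)
      linarith
  have e3 : u = (2⁻¹ : ℂ) • (u + star u) +
      (-Complex.I) • ((2⁻¹ : ℂ) • (Complex.I • (u - star u))) := by
    have : -Complex.I * (2⁻¹ * Complex.I) = 2⁻¹ := by
      have h := Complex.I_mul_I
      linear_combination (-(2⁻¹ : ℂ)) * h
    rw [smul_smul (-Complex.I), smul_smul, mul_assoc, this]
    module
  show f u = g u
  calc f u = f ((2⁻¹ : ℂ) • (u + star u)) +
        (-Complex.I) * f ((2⁻¹ : ℂ) • (Complex.I • (u - star u))) := by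
        conv_lhs => rw [e3]
        rw [map_add, map_smul f (-Complex.I), smul_eq_mul]
    _ = g ((2⁻¹ : ℂ) • (u + star u)) +
        (-Complex.I) * g ((2⁻¹ : ℂ) • (Complex.I • (u - star u))) := by rw [e1, e2]
    _ = g u := by
        conv_rhs => rw [e3]
        rw [map_add, map_smul g (-Complex.I), smul_eq_mul]

/-- **The traces agree on the transferred masa.** -/
theorem traces_agree {M N : VonNeumannAlgebra H} (TM : TracialState M) (TN : TracialState N)
    (hfac : HasTrivialCenter M) (hM : IsDiffuse M)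
    {D : StarSubalgebra ℂ (H →L[ℂ] H)} (hD : IsMasa M D) {v : H →L[ℂ] H}
    (hv : v ∈ unitary (H →L[ℂ] H)) (hvD : ∀ a ∈ D, v * a * star v ∈ N)
    (hclose : ∀ s ∈ M, ‖s‖ ≤ 1 → ∃ t ∈ N, ‖t - v * s * star v‖ ≤ 1 / 4)
    (a : H →L[ℂ] H) (ha : a ∈ D) :
    TN.τ ⟨v * a * star v, hvD a ha⟩ = TM.τ ⟨a, hD.le a ha⟩ := by
  obtain ⟨f, hfc, hf⟩ := exists_nfun TM
  obtain ⟨g, hgc, hg⟩ := exists_nfun_conj TN v
  have hvv' := (Unitary.mem_iff.1 hv).2
  have hfone : f 1 = 1 := by
    have h1 := hf 1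
    rw [TM.map_one] at h1
    exact h1
  have hgone : g 1 = 1 := by
    have h1 : v * 1 * star v ∈ N := by rw [mul_one, hvv']; exact one_mem N
    rw [hg 1 h1, ← TN.map_one]
    congr 1
    apply Subtype.ext
    show v * 1 * star v = 1
    rw [mul_one, hvv']
  -- projections with equal traces
  have hmono : ∀ p (hp : p ∈ D) q (hq : q ∈ D), star p = p → p * p = p → star q = q →
      q * q = q → f p = f q → (g p).re ≤ (g q).re := by
    intro p hp q hq hps hpp hqs hqq hpq
    obtain ⟨s, hs1, hs2⟩ := exists_equiv TM hfac ⟨p, hD.le p hp⟩ ⟨q, hD.le q hq⟩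
      (Subtype.ext hps) (Subtype.ext hpp) (Subtype.ext hqs) (Subtype.ext hqq)
      (by rw [← hf, ← hf]; exact hpq)
    have hs1' : star (s : H →L[ℂ] H) * (s : H →L[ℂ] H) = p := congrArg Subtype.val hs1
    have hs2' : (s : H →L[ℂ] H) * star (s : H →L[ℂ] H) = q := congrArg Subtype.val hs2
    have hsn : ‖(s : H →L[ℂ] H)‖ ≤ 1 := by
      have h1 : ‖p‖ * ‖p‖ = ‖p‖ := by
        rw [← CStarRing.norm_star_mul_self, hps, hpp]
      have h2 : ‖p‖ ≤ 1 := by
        by_contra hcon
        push Not at hcon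
        nlinarith
      have h3 : ‖(s : H →L[ℂ] H)‖ * ‖(s : H →L[ℂ] H)‖ ≤ 1 := by
        rw [← CStarRing.norm_star_mul_self, hs1']
        exact h2
      nlinarith [norm_nonneg (s : H →L[ℂ] H)]
    obtain ⟨t, htN, ht⟩ := hclose s s.2 hsn
    have h1 := trace_le_of_close' TN v s p q hv hps hpp hqs hqq hs1' hs2' (hvD p hp) (hvD q hq)
      t htN le_rfl ht
    rw [← hg, ← hg] at h1
    exact h1
  have hgre : ∀ p ∈ D, star p = p → g p = ((g p).re : ℂ) := by
    intro p hp hps
    rw [hg p (hvD p hp)]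
    refine trace_im_zero TN _ (Subtype.ext ?_)
    show star (v * p * star v) = v * p * star v
    rw [star_mul, star_mul, star_star, hps, mul_assoc]
  have hgeq : ∀ p (hp : p ∈ D) q (hq : q ∈ D), star p = p → p * p = p → star q = q →
      q * q = q → f p = f q → g p = g q := by
    intro p hp q hq hps hpp hqs hqq hpq
    rw [hgre p hp hps, hgre q hq hqs]
    congr 1
    exact le_antisymm (hmono p hp q hq hps hpp hqs hqq hpq)
      (hmono q hq p hp hqs hqq hps hpp hpq.symm)
  have hproj : ∀ p ∈ D, star p = p → p * p = p → f p = g p := by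
    intro p hp hps hpp
    have hτ := hf ⟨p, hD.le p hp⟩
    have hre := trace_im_zero TM ⟨p, hD.le p hp⟩ (Subtype.ext hps)
    have h0 := trace_proj_nonneg TM ⟨p, hD.le p hp⟩ (Subtype.ext hps) (Subtype.ext hpp)
    have h1 := trace_proj_le TM ⟨p, hD.le p hp⟩ (Subtype.ext hps) (Subtype.ext hpp)
    set t : ℝ := (TM.τ ⟨p, hD.le p hp⟩).re with ht
    have hfp : f p = (t : ℂ) := by
      rw [← hre]
      exact hτ
    let F : Bool → (H →L[ℂ] H) →ₗ[ℂ] ℂ := fun b => bif b then f else g
    have hF : ∀ k, WotCont (F k) := by rintro (_ | _) <;> assumption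
    obtain ⟨q, hqD, hqs, hqq, hq⟩ := masa_select hM hD F hF ((t : ℂ) • 1)
      (D.smul_mem D.one_mem _)
      (ContinuousLinearMap.isPositive_one.smul_of_nonneg (by exact_mod_cast h0))
      (by
        have : (1 : H →L[ℂ] H) - (t : ℂ) • 1 = ((1 - t : ℝ) : ℂ) • 1 := by
          push_cast
          module
        rw [this]
        exact ContinuousLinearMap.isPositive_one.smul_of_nonneg
          (by exact_mod_cast (by linarith : (0 : ℝ) ≤ 1 - t)))
    have e1 : f q = f ((t : ℂ) • 1) := hq true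
    have e2 : g q = g ((t : ℂ) • 1) := hq false
    rw [map_smul, hfone, smul_eq_mul, mul_one] at e1
    rw [map_smul, hgone, smul_eq_mul, mul_one] at e2
    rw [hgeq p hp q hqD hps hpp hqs hqq (by rw [hfp, e1]), e2, hfp]
  have h1 := agree_of_proj hM hD f g hfc hgc hproj a ha
  rw [hg a (hvD a ha)] at h1
  rw [← h1]
  exact hf ⟨a, hD.le a ha⟩

end Pool.Agent.W663.KK
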