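import Pool.Agent.W663.KK.Masa

set_option autoImplicit false
set_option linter.unusedSectionVars false

open Filter Topology
open scoped InnerProductSpace ComplexOrder
open Pool.Agent.Helper278

namespace Pool.Agent.W663.KK

variable {H : Type} [NormedAddCommGroup H] [InnerProductSpace ℂ H] [CompleteSpace H]

theorem inv_mem_vn (N : VonNeumannAlgebra H) {y z : H →L[ℂ] H} (hy : y ∈ N) (h1 : y * z = 1)
    (h2 : z * y = 1) : z ∈ N := by
  rw [mem_vn_iff]
  intro t ht
  have h3 : y * t = t * y := ht y hy
  calc t * z = (z * y) * t * z := by rw [h2, one_mul]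
    _ = z * (y * t) * z := by noncomm_ring
    _ = z * (t * y) * z := by rw [h3]
    _ = z * t * (y * z) := by noncomm_ring
    _ = z * t := by rw [h1, mul_one]

theorem trace_re_nonneg {N : VonNeumannAlgebra H} (T : TracialState N) (x : Elt N) :
    0 ≤ (T.τ (star x * x)).re := by
  have h := (trAlg T).3 x
  exact (Complex.le_def.1 h).1

/-- comparison of traces of close projections -/
theorem trace_le_of_close {N : VonNeumannAlgebra H} (T : TracialState N) (e f : Elt N)
    (he : star e = e) (hee : e * e = e) (hf : star f = f) (hff : f * f = f) (t : Elt N)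
    (ht : f * t * e = t)
    (hn : ‖star (t : H →L[ℂ] H) * (t : H →L[ℂ] H) - (e : H →L[ℂ] H)‖ < 1) :
    (T.τ e).re ≤ (T.τ f).re := by
  have hte : t * e = t := by
    calc t * e = f * t * e * e := by rw [ht]
      _ = f * t * (e * e) := by rw [mul_assoc (f * t)]
      _ = t := by rw [hee, ht]
  have hft : f * t = t := by
    calc f * t = f * (f * t * e) := by rw [ht]
      _ = (f * f) * t * e := by simp only [mul_assoc]
      _ = t := by rw [hff, ht]
  have hets : e * star t = star t := by
    have h1 := congrArg star hte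
    rw [star_mul, he] at h1
    exact h1
  -- the invertible element
  let y : Elt N := 1 - e + star t * t
  have hyn : ‖1 - (y : H →L[ℂ] H)‖ < 1 := by
    have h1 : (y : H →L[ℂ] H) = 1 - (e : H →L[ℂ] H) +
        star (t : H →L[ℂ] H) * (t : H →L[ℂ] H) := rfl
    rw [h1]
    have h2 : (1 : H →L[ℂ] H) - (1 - (e : H →L[ℂ] H) +
        star (t : H →L[ℂ] H) * (t : H →L[ℂ] H)) =
        -(star (t : H →L[ℂ] H) * (t : H →L[ℂ] H) - (e : H →L[ℂ] H)) := by abel
    rw [h2, norm_neg]
    exact hn
  have hunit : IsUnit (y : H →L[ℂ] H) := by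
    have h1 := isUnit_one_sub_of_norm_lt_one hyn
    rwa [sub_sub_cancel] at h1
  obtain ⟨Y, hY⟩ := hunit
  have hYz : (y : H →L[ℂ] H) * ((Y⁻¹ : (H →L[ℂ] H)ˣ) : H →L[ℂ] H) = 1 := by
    rw [← hY]; exact Units.mul_inv Y
  have hzY : ((Y⁻¹ : (H →L[ℂ] H)ˣ) : H →L[ℂ] H) * (y : H →L[ℂ] H) = 1 := by
    rw [← hY]; exact Units.inv_mul Y
  let z : Elt N := ⟨((Y⁻¹ : (H →L[ℂ] H)ˣ) : H →L[ℂ] H), inv_mem_vn N y.2 hYz hzY⟩
  have hyz : y * z = 1 := Subtype.ext hYz
  have hzy : z * y = 1 := Subtype.ext hzY
  have hye : y * e = star t * t := by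
    show (1 - e + star t * t) * e = star t * t
    rw [add_mul, sub_mul, one_mul, hee, sub_self, zero_add, mul_assoc, hte]
  have hey : e * y = star t * t := by
    show e * (1 - e + star t * t) = star t * t
    rw [mul_add, mul_sub, mul_one, hee, sub_self, zero_add, ← mul_assoc, hets]
  have hys : star y = y := by
    show star (1 - e + star t * t) = 1 - e + star t * t
    rw [star_add, star_sub, star_one, he, star_mul, star_star]
  have hzs : star z = z := by
    have h1 : star z * y = 1 := by
      have := congrArg star hyz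
      rwa [star_mul, hys, star_one] at this
    calc star z = star z * (y * z) := by rw [hyz, mul_one]
      _ = (star z * y) * z := by rw [mul_assoc]
      _ = z := by rw [h1, one_mul]
  set P : Elt N := t * z * star t with hP
  have hPP : P * P = P := by
    calc P * P = t * z * (star t * t) * z * star t := by rw [hP]; simp only [mul_assoc]
      _ = t * z * (y * e) * z * star t := by rw [hye]
      _ = t * (z * y) * e * z * star t := by simp only [mul_assoc]
      _ = (t * e) * z * star t := by rw [hzy, mul_one]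
      _ = P := by rw [hte]
  have hPs : star P = P := by
    rw [hP, star_mul, star_mul, star_star, hzs, ← mul_assoc]
  have hfP : f * P = P := by
    rw [hP, ← mul_assoc, ← mul_assoc, hft]
  have hPf : P * f = P := by
    have h1 := congrArg star hfP
    rwa [star_mul, hPs, hf] at h1
  have hτP : T.τ P = T.τ e := by
    have h1 : T.τ (t * z * star t) = T.τ (star t * (t * z)) := T.tracial _ _
    have h2 : star t * (t * z) = e := by
      calc star t * (t * z) = (star t * t) * z := by rw [mul_assoc]
        _ = e * (y * z) := by rw [← hey, mul_assoc]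
        _ = e := by rw [hyz, mul_one]
    rw [hP, h1, h2]
  have hpos := trace_re_nonneg T (f - P)
  have h3 : star (f - P) * (f - P) = f - P := by
    rw [star_sub, hf, hPs, mul_sub, sub_mul, sub_mul, hff, hPf, hfP, hPP]
    abel
  rw [h3, map_sub, Complex.sub_re, hτP] at hpos
  linarith

/-- The key comparison: if `s` is a partial isometry from `e` to `f` and `v s v*` is close to
`t ∈ N`, then the traces of `v e v*` and `v f v*` compare. -/
theorem trace_le_of_close' {N : VonNeumannAlgebra H} (T : TracialState N)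
    (v s e f : H →L[ℂ] H) (hv : v ∈ unitary (H →L[ℂ] H)) (he : star e = e) (hee : e * e = e)
    (hf : star f = f) (hff : f * f = f) (hs : star s * s = e) (hs' : s * star s = f)
    (heN : v * e * star v ∈ N) (hfN : v * f * star v ∈ N) (t : H →L[ℂ] H) (ht : t ∈ N)
    {γ : ℝ} (hγ : γ ≤ 1 / 4) (htn : ‖t - v * s * star v‖ ≤ γ) :
    (T.τ ⟨v * e * star v, heN⟩).re ≤ (T.τ ⟨v * f * star v, hfN⟩).re := by
  have hvv := (Unitary.mem_iff.1 hv).1
  have hvv' := (Unitary.mem_iff.1 hv).2
  have hγ0 : 0 ≤ γ := (norm_nonneg _).trans htn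
  have hconj_mul : ∀ a b : H →L[ℂ] H, (v * a * star v) * (v * b * star v) =
      v * (a * b) * star v := by
    intro a b
    calc (v * a * star v) * (v * b * star v) = v * a * (star v * v) * b * star v := by
          noncomm_ring
      _ = v * (a * b) * star v := by rw [hvv]; noncomm_ring
  have hconj_star : ∀ a : H →L[ℂ] H, star (v * a * star v) = v * star a * star v := by
    intro a
    rw [star_mul, star_mul, star_star, mul_assoc]
  have hv1 := norm_unitary_le hv
  have hv2 : ‖star v‖ ≤ 1 := by rw [norm_star]; exact hv1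
  have hnv : ∀ z : H →L[ℂ] H, ‖v * z * star v‖ ≤ ‖z‖ := by
    intro z
    calc _ ≤ ‖v‖ * ‖z‖ * ‖star v‖ :=
          (norm_mul_le _ _).trans (mul_le_mul_of_nonneg_right (norm_mul_le _ _) (norm_nonneg _))
      _ ≤ 1 * ‖z‖ * 1 := by
          refine mul_le_mul (mul_le_mul_of_nonneg_right hv1 (norm_nonneg _)) hv2
            (norm_nonneg _) (by positivity)
      _ = ‖z‖ := by ring
  have hproj : ∀ p : H →L[ℂ] H, star p = p → p * p = p → ‖p‖ ≤ 1 := by
    intro p hp hpp
    have h1 : ‖p‖ * ‖p‖ = ‖p‖ := by
      rw [← CStarRing.norm_star_mul_self, hp, hpp]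
    by_contra hcon
    push Not at hcon
    nlinarith
  set e' := v * e * star v with he'
  set f' := v * f * star v with hf'
  set s' := v * s * star v with hs''
  have he's : star e' = e' := by rw [he', hconj_star, he]
  have hf's : star f' = f' := by rw [hf', hconj_star, hf]
  have hee' : e' * e' = e' := by rw [he', hconj_mul, hee]
  have hff' : f' * f' = f' := by rw [hf', hconj_mul, hff]
  have hss' : star s' * s' = e' := by rw [hs'', hconj_star, hconj_mul, hs]
  have hss'' : s' * star s' = f' := by rw [hs'', hconj_star, hconj_mul, hs']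
  have hs'n : ‖s'‖ ≤ 1 := by
    have h1 : ‖s'‖ * ‖s'‖ ≤ 1 := by
      rw [← CStarRing.norm_star_mul_self, hss']
      exact hproj e' he's hee'
    nlinarith [norm_nonneg s']
  have hse : s' * e' = s' := by
    have h2 : star (s' * e' - s') * (s' * e' - s') = 0 := by
      rw [star_sub, star_mul, he's]
      have : (e' * star s' - star s') * (s' * e' - s') =
          e' * (star s' * s') * e' - e' * (star s' * s') - (star s' * s') * e' +
            star s' * s' := by noncomm_ring
      rw [this, hss', hee', hee']
      abel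
    exact sub_eq_zero.1 ((CStarRing.star_mul_self_eq_zero_iff _).1 h2)
  have hfs : f' * s' = s' := by
    rw [← hss'', mul_assoc, hss', hse]
  let t' : H →L[ℂ] H := f' * t * e'
  have ht'N : t' ∈ N := mul_mem (mul_mem hfN ht) heN
  have ht'n : ‖t' - s'‖ ≤ γ := by
    have h1 : t' - s' = f' * (t - s') * e' := by
      show f' * t * e' - s' = _
      rw [mul_sub, sub_mul, hfs, hse]
    rw [h1]
    calc _ ≤ ‖f'‖ * ‖t - s'‖ * ‖e'‖ :=
          (norm_mul_le _ _).trans (mul_le_mul_of_nonneg_right (norm_mul_le _ _) (norm_nonneg _))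
      _ ≤ 1 * γ * 1 := by
          refine mul_le_mul (mul_le_mul (hproj f' hf's hff') htn (norm_nonneg _) zero_le_one)
            (hproj e' he's hee') (norm_nonneg _) (by positivity)
      _ = γ := by ring
  have hclose : ‖star t' * t' - e'‖ < 1 := by
    have h1 : star t' * t' - e' = star (t' - s') * (t' - s') + star (t' - s') * s' +
        star s' * (t' - s') := by
      rw [← hss', star_sub]
      noncomm_ring
    rw [h1]
    have h2 : ‖star (t' - s')‖ ≤ γ := by rw [norm_star]; exact ht'n
    have h3 : ‖star s'‖ ≤ 1 := by rw [norm_star]; exact hs'n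
    calc _ ≤ ‖star (t' - s') * (t' - s')‖ + ‖star (t' - s') * s'‖ + ‖star s' * (t' - s')‖ :=
          (norm_add_le _ _).trans (add_le_add_left (norm_add_le _ _) _)
      _ ≤ γ * γ + γ * 1 + 1 * γ := by
          refine add_le_add (add_le_add ?_ ?_) ?_
          · exact (norm_mul_le _ _).trans (mul_le_mul h2 ht'n (norm_nonneg _) hγ0)
          · exact (norm_mul_le _ _).trans (mul_le_mul h2 hs'n (norm_nonneg _) hγ0)
          · exact (norm_mul_le _ _).trans (mul_le_mul h3 ht'n (norm_nonneg _) zero_le_one)
      _ < 1 := by nlinarith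
  refine trace_le_of_close T ⟨e', heN⟩ ⟨f', hfN⟩ (Subtype.ext he's) (Subtype.ext hee')
    (Subtype.ext hf's) (Subtype.ext hff') ⟨t', ht'N⟩ (Subtype.ext ?_) hclose
  show f' * (f' * t * e') * e' = f' * t * e'
  calc f' * (f' * t * e') * e' = (f' * f') * t * (e' * e') := by noncomm_ring
    _ = f' * t * e' := by rw [hff', hee']

end Pool.Agent.W663.KK
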