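import Pool.Agent.W663.KK.TrAgree

set_option autoImplicit false
set_option linter.unusedSectionVars false

open Filter Topology
open scoped InnerProductSpace ComplexOrder
open Pool.Agent.Helper278

namespace Pool.Agent.W663.KK

variable {H : Type} [NormedAddCommGroup H] [InnerProductSpace ℂ H] [CompleteSpace H]

/-- A finite family of vectors generating mutually orthogonal cyclic modules isomorphic to
`L²(M) e i`. -/
structure Fam (M : VonNeumannAlgebra H) (τ : Elt M → ℂ) {ι : Type} (ξ : ι → H)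
    (e : ι → Elt M) : Prop where
  isProj : ∀ i, star (e i) = e i ∧ e i * e i = e i
  state : ∀ i, ∀ x : Elt M, ⟪ξ i, (x : H →L[ℂ] H) (ξ i)⟫_ℂ = τ (x * e i)
  orth : ∀ i j, i ≠ j → ∀ x : Elt M, ⟪ξ i, (x : H →L[ℂ] H) (ξ j)⟫_ℂ = 0

variable {M : VonNeumannAlgebra H} {ι : Type} [Fintype ι] [DecidableEq ι]

/-- the sum map -/
noncomputable def SS (M : VonNeumannAlgebra H) (ξ : ι → H) : (ι → Elt M) →ₗ[ℂ] H where
  toFun x := ∑ i, (x i : H →L[ℂ] H) (ξ i)
  map_add' x y := by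
    rw [← Finset.sum_add_distrib]
    rfl
  map_smul' c x := by
    rw [RingHom.id_apply, Finset.smul_sum]
    rfl

theorem SS_apply (ξ : ι → H) (x : ι → Elt M) : SS M ξ x = ∑ i, (x i : H →L[ℂ] H) (ξ i) := rfl

theorem inner_SS {τ : Elt M → ℂ} {ξ : ι → H} {e : ι → Elt M} (hF : Fam M τ ξ e)
    (x y : ι → Elt M) : ⟪SS M ξ x, SS M ξ y⟫_ℂ = ∑ i, τ (star (x i) * y i * e i) := by
  rw [SS_apply, SS_apply, sum_inner]
  refine Finset.sum_congr rfl fun i _ => ?_
  rw [inner_sum]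
  have h1 : ∀ j, ⟪(x i : H →L[ℂ] H) (ξ i), (y j : H →L[ℂ] H) (ξ j)⟫_ℂ =
      ⟪ξ i, ((star (x i) * y j : Elt M) : H →L[ℂ] H) (ξ j)⟫_ℂ := by
    intro j
    have h2 : ((star (x i) * y j : Elt M) : H →L[ℂ] H) =
      star (x i : H →L[ℂ] H) * (y j : H →L[ℂ] H) := rfl
    rw [h2, ContinuousLinearMap.star_eq_adjoint]
    show _ = ⟪ξ i, ContinuousLinearMap.adjoint (x i : H →L[ℂ] H) ((y j : H →L[ℂ] H) (ξ j))⟫_ℂ
    rw [ContinuousLinearMap.adjoint_inner_right]
  simp only [h1]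
  rw [Finset.sum_eq_single i]
  · exact hF.state i _
  · intro j _ hj
    exact hF.orth i j (Ne.symm hj) _
  · intro h
    exact absurd (Finset.mem_univ i) h

variable {D : StarSubalgebra ℂ (H →L[ℂ] H)}

/-- unitaries of the masa as elements of `M` -/
noncomputable def uM (hD : IsMasa M D) (g : UG D) : Elt M := ⟨UI D g, hD.le _ (UI_mem D g)⟩

theorem uM_mul (hD : IsMasa M D) (g h : UG D) : uM hD (g * h) = uM hD g * uM hD h := rfl

theorem uM_one (hD : IsMasa M D) : uM hD (1 : UG D) = 1 := rfl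

theorem uM_star (hD : IsMasa M D) (g : UG D) : uM hD g * star (uM hD g) = 1 :=
  Subtype.ext (Unitary.mem_iff.1 (UI_unitary D g)).2

/-- right multiplication -/
noncomputable def RM (hD : IsMasa M D) (u : ι → UG D) : (ι → Elt M) →ₗ[ℂ] (ι → Elt M) where
  toFun x := fun i => x i * uM hD (u i)
  map_add' x y := by
    funext i
    exact add_mul _ _ _
  map_smul' c x := by
    funext i
    exact smul_mul_assoc c (x i) _

theorem RM_apply (hD : IsMasa M D) (u : ι → UG D) (x : ι → Elt M) (i : ι) :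
    RM hD u x i = x i * uM hD (u i) := rfl

theorem norm_SS_RM (T : TracialState M) (hD : IsMasa M D) {ξ : ι → H} {e : ι → Elt M}
    (hF : Fam M T.τ ξ e) (he : ∀ i, (e i : H →L[ℂ] H) ∈ D) (u : ι → UG D) (x : ι → Elt M) :
    ‖SS M ξ (RM hD u x)‖ = ‖SS M ξ x‖ := by
  have h1 : ⟪SS M ξ (RM hD u x), SS M ξ (RM hD u x)⟫_ℂ = ⟪SS M ξ x, SS M ξ x⟫_ℂ := by
    rw [inner_SS hF, inner_SS hF]
    refine Finset.sum_congr rfl fun i _ => ?_
    have hcomm : uM hD (u i) * e i = e i * uM hD (u i) :=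
      Subtype.ext (hD.comm _ (UI_mem D (u i)) _ (he i))
    rw [RM_apply, star_mul]
    have h2 : star (uM hD (u i)) * star (x i) * (x i * uM hD (u i)) * e i =
        star (uM hD (u i)) * (star (x i) * x i * e i * uM hD (u i)) := by
      simp only [mul_assoc]
      rw [hcomm]
    rw [h2, T.tracial]
    have h3 : star (x i) * x i * e i * uM hD (u i) * star (uM hD (u i)) =
        star (x i) * x i * e i := by
      rw [mul_assoc, uM_star, mul_one]
    rw [h3]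
  rw [inner_self_eq_norm_sq_to_K, inner_self_eq_norm_sq_to_K] at h1
  have h4 : ‖SS M ξ (RM hD u x)‖ ^ 2 = ‖SS M ξ x‖ ^ 2 := by
    have := h1
    norm_cast at this
  exact (sq_eq_sq₀ (norm_nonneg _) (norm_nonneg _)).1 h4

section generic

variable {X : Type} [AddCommGroup X] [Module ℂ X]

theorem dense_gen (S : X →ₗ[ℂ] H) :
    DenseRange ((S.comp (LinearMap.fst ℂ X ↥(LinearMap.range S)ᗮ)) +
      ((LinearMap.range S)ᗮ).subtype.comp (LinearMap.snd ℂ X ↥(LinearMap.range S)ᗮ)) := by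
  let K : Submodule ℂ H := (LinearMap.range S).topologicalClosure
  let _i : CompleteSpace K := (Submodule.isClosed_topologicalClosure _).completeSpace_coe
  have hK : Kᗮ = (LinearMap.range S)ᗮ := Submodule.orthogonal_closure _
  have h1 : (LinearMap.range ((S.comp (LinearMap.fst ℂ X ↥(LinearMap.range S)ᗮ)) +
      ((LinearMap.range S)ᗮ).subtype.comp
        (LinearMap.snd ℂ X ↥(LinearMap.range S)ᗮ))).topologicalClosure = ⊤ := by
    rw [eq_top_iff, ← Submodule.sup_orthogonal_of_hasOrthogonalProjection (K := K)]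
    refine sup_le ?_ ?_
    · refine Submodule.topologicalClosure_mono ?_
      rintro _ ⟨x, rfl⟩
      refine ⟨(x, 0), ?_⟩
      show S x + 0 = _
      rw [add_zero]
    · intro k hk
      rw [hK] at hk
      refine Submodule.le_topologicalClosure _ ⟨(0, ⟨k, hk⟩), ?_⟩
      show S 0 + k = k
      rw [map_zero, zero_add]
  exact Submodule.dense_iff_topologicalClosure_eq_top.2 h1

theorem norm_gen (S : X →ₗ[ℂ] H) (x : X) (k : H) (hk : k ∈ (LinearMap.range S)ᗮ) :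
    ‖S x + k‖ ^ 2 = ‖S x‖ ^ 2 + ‖k‖ ^ 2 := by
  have h : ⟪S x, k⟫_ℂ = 0 := hk _ ⟨x, rfl⟩
  have := norm_add_sq_eq_norm_sq_add_norm_sq_of_inner_eq_zero (𝕜 := ℂ) _ _ h
  rw [sq, sq, sq]
  exact this

theorem ext_W (S : X →ₗ[ℂ] H) (W W' : H →L[ℂ] H) (h1 : ∀ x, W (S x) = W' (S x))
    (h2 : ∀ k ∈ (LinearMap.range S)ᗮ, W k = W' k) : W = W' := by
  ext z
  refine (dense_gen S).induction (P := fun z => W z = W' z) ?_
    (isClosed_eq W.continuous W'.continuous) z
  rintro _ ⟨⟨x, k⟩, rfl⟩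
  show W (S x + k) = W' (S x + k)
  rw [map_add, map_add, h1, h2 _ k.2]

theorem exists_W (S : X →ₗ[ℂ] H) (R : X →ₗ[ℂ] X) (hn : ∀ x, ‖S (R x)‖ = ‖S x‖) :
    ∃ W : H →L[ℂ] H, (∀ x, W (S x) = S (R x)) ∧
      (∀ k ∈ (LinearMap.range S)ᗮ, W k = k) ∧ ∀ z, ‖W z‖ = ‖z‖ := by
  set e0 : (X × ↥(LinearMap.range S)ᗮ) →ₗ[ℂ] H :=
    (S.comp (LinearMap.fst ℂ X ↥(LinearMap.range S)ᗮ)) +
      ((LinearMap.range S)ᗮ).subtype.comp (LinearMap.snd ℂ X ↥(LinearMap.range S)ᗮ) with he0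
  let f : (X × ↥(LinearMap.range S)ᗮ) →ₗ[ℂ] H :=
    ((S.comp R).comp (LinearMap.fst ℂ X ↥(LinearMap.range S)ᗮ)) +
      ((LinearMap.range S)ᗮ).subtype.comp (LinearMap.snd ℂ X ↥(LinearMap.range S)ᗮ)
  have hd : DenseRange e0 := dense_gen S
  have he : ∀ x (k : ↥(LinearMap.range S)ᗮ), e0 (x, k) = S x + k := fun x k => rfl
  have hf : ∀ x (k : ↥(LinearMap.range S)ᗮ), f (x, k) = S (R x) + k := fun x k => rfl
  have hfn : ∀ z, ‖f z‖ = ‖e0 z‖ := by
    rintro ⟨x, k⟩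
    rw [he, hf]
    have h1 : ‖S (R x) + (k : H)‖ ^ 2 = ‖S x + (k : H)‖ ^ 2 := by
      rw [norm_gen S _ _ k.2, norm_gen S _ _ k.2, hn]
    exact (sq_eq_sq₀ (norm_nonneg _) (norm_nonneg _)).1 h1
  have hW : ∀ z, f.extendOfNorm e0 (e0 z) = f z := fun z =>
    LinearMap.extendOfNorm_eq hd ⟨1, fun x => by rw [hfn, one_mul]⟩ z
  refine ⟨f.extendOfNorm e0, ?_, ?_, ?_⟩
  · intro x
    have h1 := hW (x, 0)
    rw [he, hf] at h1
    simpa using h1
  · intro k hk
    have h1 := hW (0, ⟨k, hk⟩)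
    rw [he, hf, map_zero, map_zero, map_zero, zero_add] at h1
    exact h1
  · intro z
    refine hd.induction (P := fun z => ‖f.extendOfNorm e0 z‖ = ‖z‖) ?_
      (isClosed_eq (f.extendOfNorm e0).continuous.norm continuous_norm) z
    rintro _ ⟨y, rfl⟩
    show ‖f.extendOfNorm e0 (e0 y)‖ = ‖e0 y‖
    rw [hW, hfn]

end generic

/-- the operator of right multiplication by `u` -/
theorem exists_R0 (T : TracialState M) (hD : IsMasa M D) {ξ : ι → H} {e : ι → Elt M}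
    (hF : Fam M T.τ ξ e) (he : ∀ i, (e i : H →L[ℂ] H) ∈ D) (u : ι → UG D) :
    ∃ W : H →L[ℂ] H, (∀ x, W (SS M ξ x) = SS M ξ (RM hD u x)) ∧
      (∀ k ∈ (LinearMap.range (SS M ξ))ᗮ, W k = k) ∧ ∀ z, ‖W z‖ = ‖z‖ :=
  exists_W (SS M ξ) (RM hD u) (norm_SS_RM T hD hF he u)

/-- the operator of right multiplication by `u` -/
noncomputable def R0 (T : TracialState M) (hD : IsMasa M D) {ξ : ι → H} {e : ι → Elt M}
    (hF : Fam M T.τ ξ e) (he : ∀ i, (e i : H →L[ℂ] H) ∈ D) (u : ι → UG D) : H →L[ℂ] H :=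
  (exists_R0 T hD hF he u).choose

theorem R0_apply (T : TracialState M) (hD : IsMasa M D) {ξ : ι → H} {e : ι → Elt M}
    (hF : Fam M T.τ ξ e) (he : ∀ i, (e i : H →L[ℂ] H) ∈ D) (u : ι → UG D) (x : ι → Elt M) :
    R0 T hD hF he u (SS M ξ x) = SS M ξ (RM hD u x) :=
  (exists_R0 T hD hF he u).choose_spec.1 x

theorem R0_orth (T : TracialState M) (hD : IsMasa M D) {ξ : ι → H} {e : ι → Elt M}
    (hF : Fam M T.τ ξ e) (he : ∀ i, (e i : H →L[ℂ] H) ∈ D) (u : ι → UG D) (k : H)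
    (hk : k ∈ (LinearMap.range (SS M ξ))ᗮ) : R0 T hD hF he u k = k :=
  (exists_R0 T hD hF he u).choose_spec.2.1 k hk

theorem R0_norm (T : TracialState M) (hD : IsMasa M D) {ξ : ι → H} {e : ι → Elt M}
    (hF : Fam M T.τ ξ e) (he : ∀ i, (e i : H →L[ℂ] H) ∈ D) (u : ι → UG D) (z : H) :
    ‖R0 T hD hF he u z‖ = ‖z‖ :=
  (exists_R0 T hD hF he u).choose_spec.2.2 z

theorem R0_mul (T : TracialState M) (hD : IsMasa M D) {ξ : ι → H} {e : ι → Elt M}
    (hF : Fam M T.τ ξ e) (he : ∀ i, (e i : H →L[ℂ] H) ∈ D) (u v : ι → UG D) :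
    R0 T hD hF he (u * v) = R0 T hD hF he u * R0 T hD hF he v := by
  refine ext_W (SS M ξ) _ _ (fun x => ?_) (fun k hk => ?_)
  · show _ = R0 T hD hF he u (R0 T hD hF he v (SS M ξ x))
    rw [R0_apply, R0_apply, R0_apply]
    refine congrArg (SS M ξ) (funext fun i => ?_)
    show x i * uM hD (u i * v i) = x i * uM hD (v i) * uM hD (u i)
    rw [UG_comm hD, uM_mul, mul_assoc]
  · show _ = R0 T hD hF he u (R0 T hD hF he v k)
    rw [R0_orth T hD hF he _ k hk, R0_orth T hD hF he _ k hk, R0_orth T hD hF he _ k hk]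

theorem R0_one (T : TracialState M) (hD : IsMasa M D) {ξ : ι → H} {e : ι → Elt M}
    (hF : Fam M T.τ ξ e) (he : ∀ i, (e i : H →L[ℂ] H) ∈ D) :
    R0 T hD hF he (1 : ι → UG D) = 1 := by
  refine ext_W (SS M ξ) _ _ (fun x => ?_) (fun k hk => ?_)
  · rw [R0_apply]
    show _ = SS M ξ x
    refine congrArg (SS M ξ) (funext fun i => ?_)
    show x i * uM hD (1 : UG D) = x i
    rw [uM_one, mul_one]
  · rw [R0_orth T hD hF he _ k hk, ContinuousLinearMap.one_apply]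

/-- the representation of the group by right multiplications -/
noncomputable def Rho (T : TracialState M) (hD : IsMasa M D) {ξ : ι → H} {e : ι → Elt M}
    (hF : Fam M T.τ ξ e) (he : ∀ i, (e i : H →L[ℂ] H) ∈ D) : (ι → UG D) →* (H →L[ℂ] H) where
  toFun u := R0 T hD hF he u
  map_one' := R0_one T hD hF he
  map_mul' := R0_mul T hD hF he

theorem Rho_unitary (T : TracialState M) (hD : IsMasa M D) {ξ : ι → H} {e : ι → Elt M}
    (hF : Fam M T.τ ξ e) (he : ∀ i, (e i : H →L[ℂ] H) ∈ D) (u : ι → UG D) :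
    Rho T hD hF he u ∈ unitary (H →L[ℂ] H) := by
  have h1 : star (Rho T hD hF he u) * Rho T hD hF he u = 1 := by
    rw [ContinuousLinearMap.star_eq_adjoint]
    exact (ContinuousLinearMap.norm_map_iff_adjoint_comp_self _).1 (R0_norm T hD hF he u)
  have h2 : Rho T hD hF he u * Rho T hD hF he u⁻¹ = 1 := by
    rw [← map_mul, mul_inv_cancel, map_one]
  refine Unitary.mem_iff.2 ⟨h1, ?_⟩
  have h3 : star (Rho T hD hF he u) = Rho T hD hF he u⁻¹ := by
    calc star (Rho T hD hF he u) =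
          star (Rho T hD hF he u) * (Rho T hD hF he u * Rho T hD hF he u⁻¹) := by
          rw [h2, mul_one]
      _ = (star (Rho T hD hF he u) * Rho T hD hF he u) * Rho T hD hF he u⁻¹ := by
          rw [mul_assoc]
      _ = Rho T hD hF he u⁻¹ := by rw [h1, one_mul]
  rw [h3, h2]

theorem SS_left (ξ : ι → H) (m : Elt M) (x : ι → Elt M) :
    (m : H →L[ℂ] H) (SS M ξ x) = SS M ξ (fun i => m * x i) := by
  rw [SS_apply, SS_apply, map_sum]
  rfl

theorem orth_inv (ξ : ι → H) (m : Elt M) (k : H) (hk : k ∈ (LinearMap.range (SS M ξ))ᗮ) :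
    (m : H →L[ℂ] H) k ∈ (LinearMap.range (SS M ξ))ᗮ := by
  rw [Submodule.mem_orthogonal] at hk ⊢
  rintro _ ⟨x, rfl⟩
  have h1 := hk ((star (m : H →L[ℂ] H)) (SS M ξ x)) ⟨fun i => star m * x i, (SS_left ξ (star m) x).symm⟩
  rw [ContinuousLinearMap.star_eq_adjoint, ContinuousLinearMap.adjoint_inner_left] at h1
  exact h1

theorem Rho_comm (T : TracialState M) (hD : IsMasa M D) {ξ : ι → H} {e : ι → Elt M}
    (hF : Fam M T.τ ξ e) (he : ∀ i, (e i : H →L[ℂ] H) ∈ D) (u : ι → UG D) (m : Elt M) :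
    Rho T hD hF he u * (m : H →L[ℂ] H) = (m : H →L[ℂ] H) * Rho T hD hF he u := by
  refine ext_W (SS M ξ) _ _ (fun x => ?_) (fun k hk => ?_)
  · show R0 T hD hF he u ((m : H →L[ℂ] H) (SS M ξ x)) =
      (m : H →L[ℂ] H) (R0 T hD hF he u (SS M ξ x))
    rw [SS_left, R0_apply, R0_apply, SS_left]
    refine congrArg (SS M ξ) (funext fun i => ?_)
    show m * x i * uM hD (u i) = m * (x i * uM hD (u i))
    rw [mul_assoc]
  · show R0 T hD hF he u ((m : H →L[ℂ] H) k) = (m : H →L[ℂ] H) (R0 T hD hF he u k)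
    rw [R0_orth T hD hF he _ k hk, R0_orth T hD hF he _ _ (orth_inv ξ m k hk)]

theorem Rho_vec (T : TracialState M) (hD : IsMasa M D) {ξ : ι → H} {e : ι → Elt M}
    (hF : Fam M T.τ ξ e) (he : ∀ i, (e i : H →L[ℂ] H) ∈ D) (u : ι → UG D) (i : ι) :
    Rho T hD hF he u (ξ i) = UI D (u i) (ξ i) := by
  have h1 : ∀ a : Elt M, SS M ξ (Pi.single i a) = (a : H →L[ℂ] H) (ξ i) := by
    intro a
    rw [SS_apply, Finset.sum_eq_single i]
    · rw [Pi.single_eq_same]
    · intro j _ hj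
      rw [Pi.single_eq_of_ne hj]
      rfl
    · intro h
      exact absurd (Finset.mem_univ i) h
  have h2 : SS M ξ (Pi.single i 1) = ξ i := by
    rw [h1]
    rfl
  have h3 : RM hD u (Pi.single i 1) = Pi.single i (uM hD (u i)) := by
    funext j
    rw [RM_apply]
    by_cases hj : j = i
    · subst hj
      rw [Pi.single_eq_same, Pi.single_eq_same, one_mul]
    · rw [Pi.single_eq_of_ne hj, Pi.single_eq_of_ne hj, zero_mul]
  show R0 T hD hF he u (ξ i) = _
  conv_lhs => rw [← h2]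
  rw [R0_apply, h3, h1]
  rfl

end Pool.Agent.W663.KK
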